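import Mathlib
import Pool.Agent.Helper520.CD.Kuhn

set_option autoImplicit false

/-!
Essential families in the Hilbert cube: the ambient space, the avoided hyperplanes and the
intersection theorem for partitions.
-/

namespace Pool.Agent.Helper520.CD

open Set TopologicalSpace Filter Topology

/-- The Hilbert cube. -/
abbrev Q : Type := ℕ → unitInterval

/-- Nonzero rational numbers as a subset of the reals. -/
def R : Set ℝ := {x | ∃ q : ℚ, q ≠ 0 ∧ x = (q : ℝ)}

/-- The shifted copies of the rational numbers used for partitions. -/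
def RR (l : ℕ) : Set ℝ := {x | ∃ q : ℚ, x = (q : ℝ) + ((l : ℝ) + 1) * Real.sqrt 2}

/-- Union of the hyperplanes with constants in `RR l`. -/
def HH (l : ℕ) : Set Q := {x | ∃ i, ((x i : ℝ)) ∈ RR l}

theorem RR_disj {l l' : ℕ} (h : l ≠ l') {x : ℝ} (h1 : x ∈ RR l) (h2 : x ∈ RR l') : False := by
  obtain ⟨q, hq⟩ := h1
  obtain ⟨q', hq'⟩ := h2
  have h3 : ((l : ℝ) - l') * Real.sqrt 2 = (q' : ℝ) - q := by linarith
  have h4 : ((l : ℝ) - l') ≠ 0 := by
    intro h5
    apply h
    have : (l : ℝ) = l' := by linarith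
    exact_mod_cast this
  have h5 : Real.sqrt 2 = (((q' - q) / ((l : ℚ) - l') : ℚ) : ℝ) := by
    push_cast
    rw [eq_div_iff h4, mul_comm]
    exact h3
  exact irrational_sqrt_two ⟨_, h5.symm⟩

theorem RR_irr {l : ℕ} {x : ℝ} (h1 : x ∈ RR l) (q' : ℚ) : x ≠ q' := by
  obtain ⟨q, hq⟩ := h1
  intro h
  have h3 : ((l : ℝ) + 1) * Real.sqrt 2 = (q' : ℝ) - q := by linarith
  have h4 : ((l : ℝ) + 1) ≠ 0 := by positivity
  have h5 : Real.sqrt 2 = (((q' - q) / ((l : ℚ) + 1) : ℚ) : ℝ) := by
    push_cast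
    rw [eq_div_iff h4, mul_comm]
    exact h3
  exact irrational_sqrt_two ⟨_, h5.symm⟩

theorem RR_dense (l : ℕ) {a b : ℝ} (h : a < b) : ∃ x ∈ RR l, a < x ∧ x < b := by
  obtain ⟨q, h1, h2⟩ := exists_rat_btwn (show a - ((l : ℝ) + 1) * Real.sqrt 2 <
    b - ((l : ℝ) + 1) * Real.sqrt 2 by linarith)
  exact ⟨(q : ℝ) + ((l : ℝ) + 1) * Real.sqrt 2, ⟨q, rfl⟩, by linarith, by linarith⟩

/-- The intersection theorem for partitions between opposite faces. -/
theorem partitions_meet (S : Finset ℕ) (O : ℕ → Set Q) (hO : ∀ l ∈ S, IsOpen (O l))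
    (h0 : ∀ l ∈ S, ∀ x : Q, x l = 0 → x ∈ O l)
    (h1 : ∀ l ∈ S, ∀ x ∈ closure (O l), x l ≠ 1) :
    ∃ x : Q, (∀ i, i ∉ S → x i = 0) ∧ ∀ l ∈ S, x ∈ frontier (O l) := by
  classical
  set n := S.card with hn
  set e := S.orderIsoOfFin (hn.symm) with he
  -- index of a coordinate
  have hidx : ∀ i ∈ S, ∃ a : ℕ, ∃ h : a < n, ((e ⟨a, h⟩ : S) : ℕ) = i := by
    intro i hi
    refine ⟨(e.symm ⟨i, hi⟩).1, (e.symm ⟨i, hi⟩).2, ?_⟩
    simp
  choose! idx hidx1 hidx2 using hidx
  let ce : ℕ → ℕ := fun a => if h : a < n then ((e ⟨a, h⟩ : S) : ℕ) else 0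
  have hce : ∀ a, a < n → ce a ∈ S := by
    intro a ha
    simp only [ce, dif_pos ha]
    exact (e ⟨a, ha⟩).2
  have hidxce : ∀ a, a < n → idx (ce a) = a := by
    intro a ha
    have h2 := hidx2 ((e ⟨a, ha⟩ : S) : ℕ) (e ⟨a, ha⟩).2
    have h3 : ce a = ((e ⟨a, ha⟩ : S) : ℕ) := by simp only [ce, dif_pos ha]
    have h4 : (⟨idx ↑(e ⟨a, ha⟩), hidx1 _ (e ⟨a, ha⟩).2⟩ : Fin n) = ⟨a, ha⟩ := by
      apply e.injective
      exact Subtype.ext h2
    rw [h3]
    exact congrArg Fin.val h4
  have hceidx : ∀ i ∈ S, ce (idx i) = i := by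
    intro i hi
    simp only [ce, dif_pos (hidx1 i hi)]
    exact hidx2 i hi
  -- grid points
  let val : ℕ → ℕ → unitInterval := fun m a => ⟨min ((a : ℝ) / m) 1, by
    constructor
    · positivity
    · exact min_le_right _ _⟩
  let pt : ℕ → (ℕ → ℕ) → Q := fun m v i => if i ∈ S then val m (v (idx i)) else 0
  have hptS : ∀ m v i, i ∉ S → pt m v i = 0 := by
    intro m v i hi
    simp only [pt, if_neg hi]
  -- the labelling
  let P : ℕ → (ℕ → ℕ) → ℕ → Prop := fun m v a => a = n ∨ pt m v ∉ O (ce a)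
  have hP : ∀ m v, ∃ a, P m v a := fun m v => ⟨n, Or.inl rfl⟩
  let lam : ℕ → (ℕ → ℕ) → ℕ := fun m v => Nat.find (hP m v)
  have key : ∀ m : ℕ, ∃ x : ℕ → ℕ, ∀ j, j ≤ n → ∃ y : ℕ → ℕ,
      (∀ i, i < n → y i = x i ∨ y i = x i + 1) ∧ lam (m + 1) y = j := by
    intro m
    obtain ⟨x, _, hx2⟩ := Kuhn.kuhn n (m + 1) (lam (m + 1)) (by
        intro v hv
        exact Nat.find_min' _ (Or.inl rfl))
      (by
        intro i hi v hv hvi heq
        have h2 : P (m + 1) v i := by
          rw [← heq]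
          exact Nat.find_spec (hP (m + 1) v)
        rcases h2 with h2 | h2
        · omega
        · apply h2
          apply h0 _ (hce i hi)
          simp only [pt, if_pos (hce i hi), hidxce i hi, hvi, val]
          apply Subtype.ext
          simp)
      (by
        intro i hi v hv hvi
        apply Nat.find_min'
        right
        intro h2
        apply h1 _ (hce i hi) _ (subset_closure h2)
        simp only [pt, if_pos (hce i hi), hidxce i hi, hvi, val]
        apply Subtype.ext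
        have : ((m : ℝ) + 1) ≠ 0 := by positivity
        simp [this])
    refine ⟨x, fun j hj => ?_⟩
    obtain ⟨y, hy1, _, hy3⟩ := hx2 j hj
    exact ⟨y, hy1, hy3⟩
  choose X hX using key
  choose! Y hY1 hY2 using hX
  obtain ⟨x, _, φ, hφ, hlim⟩ := (isCompact_univ (X := Q)).tendsto_subseq
    (x := fun m => pt (m + 1) (X m)) (fun m => mem_univ _)
  -- all vertices converge to the same point
  have hclose : ∀ m j, j ≤ n → ∀ i, |((pt (m + 1) (Y m j) i : ℝ)) - (pt (m + 1) (X m) i : ℝ)| ≤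
      1 / ((m : ℝ) + 1) := by
    intro m j hj i
    by_cases hi : i ∈ S
    · simp only [pt, if_pos hi, val]
      have hm : (0 : ℝ) < (m : ℝ) + 1 := by positivity
      have h2 : (((Y m j) (idx i) : ℕ) : ℝ) = (X m (idx i) : ℝ) ∨
          (((Y m j) (idx i) : ℕ) : ℝ) = (X m (idx i) : ℝ) + 1 := by
        rcases hY1 m j hj (idx i) (hidx1 i hi) with h | h
        · left; exact_mod_cast h
        · right; exact_mod_cast h
      have h3 : |(((Y m j) (idx i) : ℕ) : ℝ) / ((m : ℝ) + 1) - (X m (idx i) : ℝ) / ((m : ℝ) + 1)| ≤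
          1 / ((m : ℝ) + 1) := by
        rw [← sub_div, abs_div, abs_of_pos hm]
        apply div_le_div_of_nonneg_right _ hm.le
        rcases h2 with h | h <;> rw [h] <;> simp
      push_cast
      refine (abs_min_sub_min_le_max _ _ _ _).trans ?_
      simp only [sub_self, abs_zero]
      exact max_le h3 (by positivity)
    · simp only [hptS _ _ i hi, sub_self, abs_zero]
      positivity
  have hlimY : ∀ j, j ≤ n → Tendsto (fun k => pt (φ k + 1) (Y (φ k) j)) atTop (𝓝 x) := by
    intro j hj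
    rw [tendsto_pi_nhds] at hlim ⊢
    intro i
    have h2 := hlim i
    rw [Topology.IsEmbedding.subtypeVal.tendsto_nhds_iff] at h2 ⊢
    have h3 : Tendsto (fun k => 1 / (((φ k : ℕ) : ℝ) + 1)) atTop (𝓝 0) :=
      tendsto_one_div_add_atTop_nhds_zero_nat.comp hφ.tendsto_atTop
    have h4 : Tendsto (fun k => ((pt (φ k + 1) (Y (φ k) j) i : ℝ)) -
        (pt (φ k + 1) (X (φ k)) i : ℝ)) atTop (𝓝 0) := by
      apply squeeze_zero_norm _ h3
      intro k
      exact hclose (φ k) j hj i
    have h5 := h4.add h2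
    simp only [Function.comp_def, zero_add] at h5 ⊢
    convert h5 using 2
    ring
  refine ⟨x, ?_, ?_⟩
  · intro i hi
    have h2 : Tendsto (fun k => pt (φ k + 1) (X (φ k)) i) atTop (𝓝 (x i)) :=
      (tendsto_pi_nhds.1 hlim) i
    have h3 : (fun k => pt (φ k + 1) (X (φ k)) i) = fun _ => 0 := by
      funext k
      exact hptS _ _ i hi
    rw [h3] at h2
    exact (tendsto_nhds_unique h2 tendsto_const_nhds)
  · intro l hl
    have hln := hidx1 l hl
    rw [(hO l hl).frontier_eq]
    constructor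
    · apply mem_closure_of_tendsto (hlimY n le_rfl)
      filter_upwards with k
      have h2 : lam (φ k + 1) (Y (φ k) n) = n := hY2 (φ k) n le_rfl
      have h3 := Nat.find_min (hP (φ k + 1) (Y (φ k) n)) (m := idx l) (by
        show idx l < lam (φ k + 1) (Y (φ k) n)
        rw [h2]; exact hln)
      simp only [P, not_or, not_not] at h3
      rw [hceidx l hl] at h3
      exact h3.2
    · have hcl : IsClosed (O l)ᶜ := (hO l hl).isClosed_compl
      apply hcl.mem_of_tendsto (hlimY (idx l) hln.le)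
      filter_upwards with k
      have h2 : lam (φ k + 1) (Y (φ k) (idx l)) = idx l := hY2 (φ k) (idx l) hln.le
      have h3 := Nat.find_spec (hP (φ k + 1) (Y (φ k) (idx l)))
      have h4 : P (φ k + 1) (Y (φ k) (idx l)) (idx l) := by
        have : Nat.find (hP (φ k + 1) (Y (φ k) (idx l))) = idx l := h2
        rw [this] at h3
        exact h3
      rcases h4 with h4 | h4
      · omega
      · rw [hceidx l hl] at h4
        exact h4

end Pool.Agent.Helper520.CD
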