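import Mathlib
import Pool.Agent.Helper520.CD.Core1

set_option autoImplicit false

/-!
Small closed subsets of the Hilbert cube.
-/

namespace Pool.Agent.Helper520.CD

open Set TopologicalSpace Filter Topology

/-- `T` is obtained from a finite dimensional face by cutting with partitions in all directions
of the face outside `D`. -/
def Wit (D : Finset ℕ) (T : Set Q) : Prop :=
  ∃ (S : Finset ℕ) (O : ℕ → Set Q), D ⊆ S ∧
    (∀ l ∈ S \ D, IsOpen (O l) ∧ (∀ x : Q, x l = 0 → x ∈ O l) ∧
      (∀ x ∈ closure (O l), x l ≠ 1) ∧ frontier (O l) ⊆ HH l) ∧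
    T = {x : Q | (∀ i, i ∉ S → x i = 0) ∧ ∀ l ∈ S \ D, x ∈ frontier (O l)}

/-- `U` contains a witness for `D`. -/
def Ess (D : Finset ℕ) (U : Set Q) : Prop := ∃ T, Wit D T ∧ T ⊆ U

/-- `K` can be removed from open sets without destroying essentiality. -/
def Small (K : Set Q) : Prop :=
  ∀ (D : Finset ℕ) (U : Set Q), IsOpen U → Ess D U → Ess D (U \ K)

theorem Wit.closed {D : Finset ℕ} {T : Set Q} (h : Wit D T) : IsClosed T := by
  obtain ⟨S, O, _, _, rfl⟩ := h
  have h1 : {x : Q | (∀ i, i ∉ S → x i = 0) ∧ ∀ l ∈ S \ D, x ∈ frontier (O l)} =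
      (⋂ i, ⋂ (_ : i ∉ S), {x : Q | x i = 0}) ∩ ⋂ l, ⋂ (_ : l ∈ S \ D), frontier (O l) := by
    ext x
    simp only [mem_ofPred_eq, mem_inter_iff, mem_iInter]
  rw [h1]
  apply IsClosed.inter
  · exact isClosed_iInter fun i => isClosed_iInter fun _ =>
      isClosed_eq (continuous_apply i) continuous_const
  · exact isClosed_iInter fun i => isClosed_iInter fun _ => isClosed_frontier

theorem Ess.mono {D : Finset ℕ} {U V : Set Q} (h : Ess D U) (hUV : U ⊆ V) : Ess D V := by
  obtain ⟨T, h1, h2⟩ := h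
  exact ⟨T, h1, h2.trans hUV⟩

theorem Small.mono {K L : Set Q} (h : Small L) (hKL : K ⊆ L) : Small K := by
  intro D U hU hE
  exact (h D U hU hE).mono (sdiff_subset_sdiff_right hKL)

theorem Wit.nonempty {T : Set Q} (h : Wit ∅ T) : T.Nonempty := by
  obtain ⟨S, O, _, h1, rfl⟩ := h
  simp only [Finset.sdiff_empty] at h1 ⊢
  obtain ⟨x, hx1, hx2⟩ := partitions_meet S O (fun l hl => (h1 l hl).1)
    (fun l hl => (h1 l hl).2.1) (fun l hl => (h1 l hl).2.2.1)
  exact ⟨x, hx1, hx2⟩

theorem not_small_univ : ¬ Small (univ : Set Q) := by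
  intro h
  have h1 : Ess ∅ (univ : Set Q) := by
    refine ⟨_, ⟨∅, fun _ => ∅, subset_rfl, ?_, rfl⟩, subset_univ _⟩
    intro l hl
    simp at hl
  obtain ⟨T, h2, h3⟩ := h ∅ univ isOpen_univ h1
  obtain ⟨x, hx⟩ := h2.nonempty
  have := h3 hx
  simp at this

/-- Boxes with end points in `RR l` around a compact set. -/
theorem box_nhd (l : ℕ) (P V : Set Q) (hP : IsClosed P) (hV : IsOpen V) (hPV : P ⊆ V) :
    ∃ O : Set Q, IsOpen O ∧ P ⊆ O ∧ closure O ⊆ V ∧ frontier O ⊆ HH l := by
  classical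
  apply hP.isCompact.induction_on (p := fun P => ∃ O : Set Q, IsOpen O ∧ P ⊆ O ∧
    closure O ⊆ V ∧ frontier O ⊆ HH l)
  · exact ⟨∅, isOpen_empty, subset_rfl, by simp, by simp⟩
  · rintro s t hst ⟨O, h1, h2, h3, h4⟩
    exact ⟨O, h1, hst.trans h2, h3, h4⟩
  · rintro s t ⟨O, h1, h2, h3, h4⟩ ⟨O', h1', h2', h3', h4'⟩
    refine ⟨O ∪ O', h1.union h1', union_subset_union h2 h2', ?_, ?_⟩
    · rw [closure_union]; exact union_subset h3 h3'
    · refine (frontier_union_subset _ _).trans ?_
      exact union_subset (inter_subset_left.trans h4) (inter_subset_right.trans h4')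
  · intro x hx
    obtain ⟨I, u, hu, hIu⟩ := isOpen_pi_iff.1 hV x (hPV hx)
    have h1 : ∀ i, ∃ a b : ℝ, a ∈ RR l ∧ b ∈ RR l ∧ a < x i ∧ (x i : ℝ) < b ∧
        (i ∈ I → ∀ y : unitInterval, a ≤ y → (y : ℝ) ≤ b → y ∈ u i) := by
      intro i
      by_cases hi : i ∈ I
      · obtain ⟨ε, hε, hball⟩ := Metric.isOpen_iff.1 (hu i hi).1 _ (hu i hi).2
        obtain ⟨a, ha, ha1, ha2⟩ := RR_dense l (show (x i : ℝ) - ε < x i by linarith)
        obtain ⟨b, hb, hb1, hb2⟩ := RR_dense l (show (x i : ℝ) < x i + ε by linarith)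
        refine ⟨a, b, ha, hb, ha2, hb1, fun _ y hy1 hy2 => hball ?_⟩
        rw [Metric.mem_ball, Subtype.dist_eq, Real.dist_eq, abs_lt]
        constructor <;> linarith
      · obtain ⟨a, ha, ha1, ha2⟩ := RR_dense l (show (x i : ℝ) - 1 < x i by linarith)
        obtain ⟨b, hb, hb1, hb2⟩ := RR_dense l (show (x i : ℝ) < x i + 1 by linarith)
        exact ⟨a, b, ha, hb, ha2, hb1, fun h => absurd h hi⟩
    choose a b ha hb hax hxb hab using h1
    have hopen : IsOpen {y : Q | ∀ i ∈ I, a i < y i ∧ (y i : ℝ) < b i} := by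
      have : {y : Q | ∀ i ∈ I, a i < y i ∧ (y i : ℝ) < b i} =
          ⋂ i ∈ I, {y : Q | a i < y i ∧ (y i : ℝ) < b i} := by
        ext y; simp
      rw [this]
      apply isOpen_biInter_finset
      intro i _
      have hc : Continuous (fun y : Q => (y i : ℝ)) :=
        continuous_subtype_val.comp (continuous_apply i)
      exact (isOpen_lt continuous_const hc).inter (isOpen_lt hc continuous_const)
    have hclosed : IsClosed {y : Q | ∀ i ∈ I, a i ≤ y i ∧ (y i : ℝ) ≤ b i} := by
      have : {y : Q | ∀ i ∈ I, a i ≤ y i ∧ (y i : ℝ) ≤ b i} =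
          ⋂ i, ⋂ (_ : i ∈ I), {y : Q | a i ≤ y i ∧ (y i : ℝ) ≤ b i} := by
        ext y; simp
      rw [this]
      refine isClosed_iInter fun i => isClosed_iInter fun _ => ?_
      have hc : Continuous (fun y : Q => (y i : ℝ)) :=
        continuous_subtype_val.comp (continuous_apply i)
      exact (isClosed_le continuous_const hc).inter (isClosed_le hc continuous_const)
    have hcl : closure {y : Q | ∀ i ∈ I, a i < y i ∧ (y i : ℝ) < b i} ⊆
        {y : Q | ∀ i ∈ I, a i ≤ y i ∧ (y i : ℝ) ≤ b i} :=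
      closure_minimal (fun y hy i hi => ⟨(hy i hi).1.le, (hy i hi).2.le⟩) hclosed
    refine ⟨{y : Q | ∀ i ∈ I, a i < y i ∧ (y i : ℝ) < b i}, ?_, _, hopen, subset_rfl, ?_, ?_⟩
    · apply mem_nhdsWithin_of_mem_nhds
      exact hopen.mem_nhds fun i _ => ⟨hax i, hxb i⟩
    · refine hcl.trans fun y hy => hIu ?_
      intro i hi
      exact hab i hi (y i) (hy i hi).1 (hy i hi).2
    · rw [hopen.frontier_eq]
      rintro y ⟨hy1, hy2⟩
      have hy3 := hcl hy1
      simp only [mem_ofPred_eq, not_forall] at hy2 hy3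
      obtain ⟨i, hi, hy4⟩ := hy2
      refine ⟨i, ?_⟩
      rcases (hy3 i hi).1.lt_or_eq with h | h
      · rcases (hy3 i hi).2.lt_or_eq with h' | h'
        · exact absurd ⟨h, h'⟩ hy4
        · rw [h']; exact hb i
      · rw [← h]; exact ha i

/-- Cutting a witness by a partition. -/
theorem Wit.cut {D : Finset ℕ} {j : ℕ} (hj : j ∉ D) {T : Set Q} (h : Wit (insert j D) T)
    (P1 P2 : Set Q) (hP1 : IsClosed P1) (hP2 : IsClosed P2) (hd : Disjoint P1 P2)
    (h1 : ∀ x : Q, x j = 0 → x ∈ P1) (h2 : ∀ x : Q, x j = 1 → x ∈ P2) :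
    ∃ T', Wit D T' ∧ T' ⊆ T ∧ Disjoint T' P1 ∧ Disjoint T' P2 := by
  classical
  obtain ⟨S, O, hS, hO, rfl⟩ := h
  obtain ⟨O', hO1, hO2, hO3, hO4⟩ := box_nhd j P1 P2ᶜ hP1 hP2.isOpen_compl
    (subset_compl_iff_disjoint_right.2 hd)
  have hjS : j ∈ S := hS (Finset.mem_insert_self _ _)
  refine ⟨{x : Q | (∀ i, i ∉ S → x i = 0) ∧
    ∀ l ∈ S \ D, x ∈ frontier ((Function.update O j O') l)},
    ⟨S, Function.update O j O', ?_, ?_, rfl⟩, ?_, ?_, ?_⟩
  · exact (Finset.subset_insert _ _).trans hS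
  · intro l hl
    rw [Finset.mem_sdiff] at hl
    by_cases hlj : l = j
    · subst hlj
      simp only [Function.update_self]
      refine ⟨hO1, fun x hx => hO2 (h1 x hx), fun x hx hx1 => ?_, hO4⟩
      exact hO3 hx (h2 x hx1)
    · simp only [Function.update_of_ne hlj]
      apply hO
      rw [Finset.mem_sdiff, Finset.mem_insert]
      exact ⟨hl.1, fun h => h.elim hlj hl.2⟩
  · rintro x ⟨hx1, hx2⟩
    refine ⟨hx1, fun l hl => ?_⟩
    rw [Finset.mem_sdiff, Finset.mem_insert, not_or] at hl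
    have := hx2 l (Finset.mem_sdiff.2 ⟨hl.1, hl.2.2⟩)
    rwa [Function.update_of_ne hl.2.1] at this
  · rw [Set.disjoint_left]
    rintro x ⟨hx1, hx2⟩ hx3
    have := hx2 j (Finset.mem_sdiff.2 ⟨hjS, hj⟩)
    rw [Function.update_self, hO1.frontier_eq] at this
    exact this.2 (hO2 hx3)
  · rw [Set.disjoint_left]
    rintro x ⟨hx1, hx2⟩ hx3
    have := hx2 j (Finset.mem_sdiff.2 ⟨hjS, hj⟩)
    rw [Function.update_self, hO1.frontier_eq] at this
    exact hO3 this.1 hx3

/-- Adding a new direction. -/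
theorem Ess.extend {D : Finset ℕ} {U : Set Q} (hU : IsOpen U) (h : Ess D U) :
    ∃ j, j ∉ D ∧ Ess (insert j D) U := by
  classical
  obtain ⟨T, hT, hTU⟩ := h
  have hTc := hT.closed
  have h1 : ∃ I : Finset ℕ, ∀ j, j ∉ I → ∀ x : Q, Function.update x j 0 ∈ T → x ∈ U := by
    apply hTc.isCompact.induction_on (p := fun P => ∃ I : Finset ℕ, ∀ j, j ∉ I → ∀ x : Q,
      Function.update x j 0 ∈ P → x ∈ U)
    · exact ⟨∅, fun j _ x hx => absurd hx (by simp)⟩
    · rintro s t hst ⟨I, hI⟩
      exact ⟨I, fun j hj x hx => hI j hj x (hst hx)⟩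
    · rintro s t ⟨I, hI⟩ ⟨I', hI'⟩
      refine ⟨I ∪ I', fun j hj x hx => ?_⟩
      rw [Finset.mem_union, not_or] at hj
      exact hx.elim (hI j hj.1 x) (hI' j hj.2 x)
    · intro x hx
      obtain ⟨I, u, hu, hIu⟩ := isOpen_pi_iff.1 hU x (hTU hx)
      refine ⟨(I : Set ℕ).pi u, ?_, I, ?_⟩
      · apply mem_nhdsWithin_of_mem_nhds
        apply (isOpen_set_pi I.finite_toSet fun i hi => (hu i hi).1).mem_nhds
        intro i hi
        exact (hu i hi).2
      · intro j hj y hy
        apply hIu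
        intro i hi
        have h2 := hy i hi
        rwa [Function.update_of_ne (by rintro rfl; exact hj hi)] at h2
  obtain ⟨I, hI⟩ := h1
  obtain ⟨S, O, hS, hO, hTeq⟩ := hT
  obtain ⟨j, hj⟩ := Infinite.exists_notMem_finset (I ∪ S)
  rw [Finset.mem_union, not_or] at hj
  have hjD : j ∉ D := fun h => hj.2 (hS h)
  refine ⟨j, hjD, _, ⟨insert j S, fun l => {x : Q | Function.update x j 0 ∈ O l},
    Finset.insert_subset_insert _ hS, ?_, rfl⟩, ?_⟩
  · intro l hl
    rw [Finset.mem_sdiff, Finset.mem_insert, Finset.mem_insert, not_or] at hl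
    have hlj : l ≠ j := hl.2.1
    have hlS : l ∈ S := hl.1.resolve_left hlj
    obtain ⟨h1, h2, h3, h4⟩ := hO l (Finset.mem_sdiff.2 ⟨hlS, hl.2.2⟩)
    have hcont : Continuous (fun x : Q => Function.update x j (0 : unitInterval)) :=
      continuous_id.update j continuous_const
    refine ⟨h1.preimage hcont, ?_, ?_, ?_⟩
    · intro x hx
      apply h2
      rw [Function.update_of_ne hlj, hx]
    · intro x hx
      have h5 : (Function.update x j (0 : unitInterval)) l ≠ 1 :=
        h3 _ ((hcont.closure_preimage_subset _) hx)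
      rwa [Function.update_of_ne hlj] at h5
    · intro x hx
      obtain ⟨i, hi⟩ := h4 ((hcont.frontier_preimage_subset _) hx)
      change ((Function.update x j (0 : unitInterval) i : unitInterval) : ℝ) ∈ RR l at hi
      refine ⟨i, ?_⟩
      by_cases hij : i = j
      · subst hij
        rw [Function.update_self] at hi
        exact absurd (by simp) (RR_irr hi 0)
      · rwa [Function.update_of_ne hij] at hi
  · rintro x ⟨hx1, hx2⟩
    apply hI j hj.1
    rw [hTeq]
    constructor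
    · intro i hi
      by_cases hij : i = j
      · subst hij; rw [Function.update_self]
      · rw [Function.update_of_ne hij]
        apply hx1
        rw [Finset.mem_insert, not_or]
        exact ⟨hij, hi⟩
    · intro l hl
      rw [Finset.mem_sdiff] at hl
      have hlj : l ≠ j := by rintro rfl; exact hj.2 hl.1
      have h5 := hx2 l (by
        rw [Finset.mem_sdiff, Finset.mem_insert, Finset.mem_insert, not_or]
        exact ⟨Or.inr hl.1, hlj, hl.2⟩)
      have hcont : Continuous (fun x : Q => Function.update x j (0 : unitInterval)) :=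
        continuous_id.update j continuous_const
      exact (hcont.frontier_preimage_subset _) h5

/-- Points of a witness for `D` have at most `D.card` rational coordinates. -/
theorem Wit.avoid {D : Finset ℕ} {T : Set Q} (h : Wit D T) (s : Finset (ℕ × ℚ))
    (hs0 : ∀ p ∈ s, p.2 ≠ 0) (hs : D.card < s.card) (x : Q) (hx : x ∈ T) :
    ¬ ∀ p ∈ s, ((x p.1 : ℝ)) = p.2 := by
  classical
  intro hxs
  obtain ⟨S, O, hS, hO, rfl⟩ := h
  obtain ⟨hx1, hx2⟩ := hx
  have hinj : Set.InjOn Prod.fst (s : Set (ℕ × ℚ)) := by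
    intro p hp p' hp' hpp
    have h1 := hxs p hp
    have h2 := hxs p' hp'
    rw [hpp] at h1
    rw [h1] at h2
    exact Prod.ext hpp (by exact_mod_cast h2)
  have hcard : (s.image Prod.fst).card = s.card := Finset.card_image_of_injOn hinj
  have hsub : s.image Prod.fst ⊆ S := by
    intro i hi
    obtain ⟨p, hp, rfl⟩ := Finset.mem_image.1 hi
    by_contra hc
    have h1 := hxs p hp
    rw [hx1 _ hc] at h1
    apply hs0 p hp
    have : ((0 : ℝ)) = p.2 := by simpa using h1
    exact_mod_cast this.symm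
  have hch : ∀ l ∈ S \ D, ∃ i, (x i : ℝ) ∈ RR l := fun l hl => (hO l hl).2.2.2 (hx2 l hl)
  choose! g hg using hch
  have hmaps : Set.MapsTo g (S \ D : Finset ℕ) (S \ (s.image Prod.fst) : Finset ℕ) := by
    intro l hl
    have h1 := hg l hl
    rw [Finset.mem_coe, Finset.mem_sdiff]
    constructor
    · by_contra hc
      rw [hx1 _ hc] at h1
      exact RR_irr h1 0 (by simp)
    · intro hc
      obtain ⟨p, hp, hpe⟩ := Finset.mem_image.1 hc
      have h2 := hxs p hp
      rw [hpe] at h2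
      exact RR_irr h1 p.2 h2
  have hginj : Set.InjOn g (S \ D : Finset ℕ) := by
    intro l hl l' hl' hll
    by_contra hne
    have h1 := hg l hl
    have h2 := hg l' hl'
    rw [← hll] at h2
    exact RR_disj hne h1 h2
  have hle := Finset.card_le_card_of_injOn g hmaps hginj
  rw [Finset.card_sdiff_of_subset hS, Finset.card_sdiff_of_subset hsub, hcard] at hle
  have h3 := Finset.card_le_card hsub
  have h4 := Finset.card_le_card hS
  omega

end Pool.Agent.Helper520.CD
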