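import Mathlib
import Pool.Agent.Helper520.CD.Core2

set_option autoImplicit false

/-!
The main exchange lemma: removing zero-dimensional sets does not change smallness.
-/

namespace Pool.Agent.Helper520.CD

open Set TopologicalSpace Filter Topology

/-- Points with finitely many nonzero rational coordinates. -/
def E : Set Q := {x | {i | ((x i : ℝ)) ∈ R}.Finite}

/-- Zero-dimensionality of a subset, by clopen neighbourhoods. -/
def ZD {X : Type*} [TopologicalSpace X] (B : Set X) : Prop :=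
  ∀ z ∈ B, ∀ O : Set X, IsOpen O → z ∈ O →
    ∃ V V' : Set X, IsOpen V ∧ IsOpen V' ∧ z ∈ V ∧ V ∩ B ⊆ O ∧ B ⊆ V ∪ V' ∧ V ∩ V' ∩ B = ∅

theorem ZD.mono {X : Type*} [TopologicalSpace X] {A B : Set X} (h : ZD B) (hAB : A ⊆ B) : ZD A := by
  intro z hz O hO hzO
  obtain ⟨V, V', h1, h2, h3, h4, h5, h6⟩ := h z (hAB hz) O hO hzO
  refine ⟨V, V', h1, h2, h3, (inter_subset_inter_right _ hAB).trans h4, hAB.trans h5, ?_⟩
  exact subset_eq_empty (inter_subset_inter_right _ hAB) h6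

/-- Splitting a compact zero-dimensional set. -/
theorem ZD.split {X : Type*} [TopologicalSpace X] [T2Space X] {Z : Set X} (h : ZD Z)
    (hZ : IsCompact Z) (P1 P2 : Set X) (hP1 : IsClosed P1) (hP2 : IsClosed P2)
    (hd : Disjoint P1 P2) :
    ∃ Z1 Z2 : Set X, IsClosed Z1 ∧ IsClosed Z2 ∧ Z1 ∪ Z2 = Z ∧ Disjoint Z1 Z2 ∧
      Z ∩ P1 ⊆ Z1 ∧ Z ∩ P2 ⊆ Z2 := by
  have h1 : ∃ V V' : Set X, IsOpen V ∧ IsOpen V' ∧ Z ∩ P1 ⊆ V ∧ V ∩ Z ⊆ P2ᶜ ∧ Z ⊆ V ∪ V' ∧
      V ∩ V' ∩ Z = ∅ := by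
    apply (hZ.inter_right hP1).induction_on (p := fun P => ∃ V V' : Set X, IsOpen V ∧ IsOpen V' ∧
      P ⊆ V ∧ V ∩ Z ⊆ P2ᶜ ∧ Z ⊆ V ∪ V' ∧ V ∩ V' ∩ Z = ∅)
    · exact ⟨∅, univ, isOpen_empty, isOpen_univ, subset_rfl, by simp, by simp, by simp⟩
    · rintro s t hst ⟨V, V', h1, h2, h3, h4, h5, h6⟩
      exact ⟨V, V', h1, h2, hst.trans h3, h4, h5, h6⟩
    · rintro s t ⟨V, V', h1, h2, h3, h4, h5, h6⟩ ⟨W, W', k1, k2, k3, k4, k5, k6⟩
      refine ⟨V ∪ W, V' ∩ W', h1.union k1, h2.inter k2, union_subset_union h3 k3, ?_, ?_, ?_⟩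
      · rw [union_inter_distrib_right]; exact union_subset h4 k4
      · intro z hz
        rcases h5 hz with h | h
        · exact Or.inl (Or.inl h)
        · rcases k5 hz with k | k
          · exact Or.inl (Or.inr k)
          · exact Or.inr ⟨h, k⟩
      · rw [eq_empty_iff_forall_notMem] at h6 k6 ⊢
        rintro z ⟨⟨h | h, h', k'⟩, hz⟩
        · exact h6 z ⟨⟨h, h'⟩, hz⟩
        · exact k6 z ⟨⟨h, k'⟩, hz⟩
    · rintro x ⟨hx1, hx2⟩
      obtain ⟨V, V', h1, h2, h3, h4, h5, h6⟩ := h x hx1 P2ᶜ hP2.isOpen_compl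
        (fun h => disjoint_left.1 hd hx2 h)
      exact ⟨V, mem_nhdsWithin_of_mem_nhds (h1.mem_nhds h3), V, V', h1, h2, subset_rfl, h4, h5, h6⟩
  obtain ⟨V, V', h1, h2, h3, h4, h5, h6⟩ := h1
  rw [eq_empty_iff_forall_notMem] at h6
  have e1 : Z \ V' = Z ∩ V := by
    ext z
    constructor
    · rintro ⟨hz, hz'⟩
      exact ⟨hz, (h5 hz).resolve_right hz'⟩
    · rintro ⟨hz, hz'⟩
      exact ⟨hz, fun h => h6 z ⟨⟨hz', h⟩, hz⟩⟩
  refine ⟨Z \ V', Z \ V, (hZ.diff h2).isClosed, (hZ.diff h1).isClosed, ?_, ?_, ?_, ?_⟩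
  · rw [e1, inter_union_sdiff]
  · rw [e1]; exact disjoint_left.2 fun z hz hz' => hz'.2 hz.2
  · rw [e1]; exact fun z hz => ⟨hz.1, h3 hz⟩
  · rintro z ⟨hz, hz2⟩
    exact ⟨hz, fun h => h4 ⟨h, hz⟩ hz2⟩

/-- The main lemma. -/
theorem small_of_cover (K : Set Q) (hK : IsClosed K) (C : ℕ → Set Q) (hC : ∀ n, IsClosed (C n))
    (hCs : ∀ n, Small (C n)) (B : Set Q) (hB : ZD B) (hcov : K ∩ E ⊆ B ∪ ⋃ n, C n) :
    Small K := by
  classical
  intro D U hU hE
  obtain ⟨j, hjD, hEj⟩ := hE.extend hU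
  set D' := insert j D with hD'
  -- countable family of sets to be avoided
  let ι := ℕ ⊕ {s : Finset (ℕ × ℚ) // (∀ p ∈ s, p.2 ≠ 0) ∧ D'.card < s.card}
  let F : ι → Set Q := Sum.elim C (fun s => {x : Q | ∀ p ∈ s.1, ((x p.1 : ℝ)) = p.2})
  have hF : ∀ i, IsClosed (F i) := by
    rintro (n | s)
    · exact hC n
    · have : F (Sum.inr s) = ⋂ p, ⋂ (_ : p ∈ s.1), {x : Q | ((x p.1 : ℝ)) = p.2} := by
        ext x; simp [F]
      rw [this]
      refine isClosed_iInter fun p => isClosed_iInter fun _ => ?_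
      exact isClosed_eq (continuous_subtype_val.comp (continuous_apply _)) continuous_const
  have hFE : ∀ i (V : Set Q), IsOpen V → Ess D' V → Ess D' (V \ F i) := by
    rintro (n | s) V hV hVE
    · exact hCs n D' V hV hVE
    · obtain ⟨T, hT, hTV⟩ := hVE
      refine ⟨T, hT, fun x hx => ⟨hTV hx, ?_⟩⟩
      exact hT.avoid s.1 s.2.1 s.2.2 x hx
  have : Nonempty ι := ⟨Sum.inl 0⟩
  obtain ⟨g, hg⟩ := exists_surjective_nat ι
  -- shrinking step
  have hstep : ∀ (n : ℕ) (V : {V : Set Q // IsOpen V ∧ Ess D' V}),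
      ∃ V' : {V : Set Q // IsOpen V ∧ Ess D' V}, closure V'.1 ⊆ V.1 \ F (g n) := by
    rintro n ⟨V, hV, hVE⟩
    obtain ⟨T, hT, hTV⟩ := hFE (g n) V hV hVE
    obtain ⟨W, hW1, hW2, hW3⟩ := normal_exists_closure_subset hT.closed
      (hV.sdiff (hF (g n))) hTV
    exact ⟨⟨W, hW1, T, hT, hW2⟩, hW3⟩
  choose step hstep using hstep
  let V : ℕ → {V : Set Q // IsOpen V ∧ Ess D' V} := fun n =>
    Nat.rec ⟨U, hU, hEj⟩ (fun n V => step n V) n
  have hV0 : (V 0).1 = U := rfl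
  have hVs : ∀ n, closure (V (n + 1)).1 ⊆ (V n).1 \ F (g n) := fun n => hstep n (V n)
  have hVanti : Antitone (fun n => closure (V n).1) := by
    apply antitone_nat_of_succ_le
    intro n
    exact (hVs n).trans (sdiff_subset.trans subset_closure)
  set Tp := ⋂ n, closure (V n).1 with hTp
  have hTpF : ∀ i, Disjoint Tp (F i) := by
    intro i
    obtain ⟨n, rfl⟩ := hg i
    rw [disjoint_left]
    intro x hx
    exact (hVs n (mem_iInter.1 hx (n + 1))).2
  have hTpE : Tp ⊆ E := by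
    intro x hx
    by_contra hc
    have hc' : {i | ((x i : ℝ)) ∈ R}.Infinite := hc
    obtain ⟨t, ht1, ht2⟩ := hc'.exists_subset_card_eq (D'.card + 1)
    have hch : ∀ i ∈ t, ∃ q : ℚ, q ≠ 0 ∧ (x i : ℝ) = q := fun i hi => ht1 hi
    choose! q hq1 hq2 using hch
    let s : Finset (ℕ × ℚ) := t.image (fun i => (i, q i))
    have hs : s.card = t.card := Finset.card_image_of_injective _ (fun a b hab => by
      simpa using congrArg Prod.fst hab)
    have hs1 : ∀ p ∈ s, p.2 ≠ 0 := by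
      intro p hp
      obtain ⟨i, hi, rfl⟩ := Finset.mem_image.1 hp
      exact hq1 i hi
    refine disjoint_left.1 (hTpF (Sum.inr ⟨s, hs1, by rw [hs, ht2]; omega⟩)) hx ?_
    intro p hp
    obtain ⟨i, hi, rfl⟩ := Finset.mem_image.1 hp
    exact hq2 i hi
  have hTpc : IsClosed Tp := isClosed_iInter fun n => isClosed_closure
  set Z := Tp ∩ K with hZ
  have hZB : Z ⊆ B := by
    rintro x ⟨hx1, hx2⟩
    rcases hcov ⟨hx2, hTpE hx1⟩ with h | h
    · exact h
    · obtain ⟨n, hn⟩ := mem_iUnion.1 h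
      exact absurd hn (disjoint_left.1 (hTpF (Sum.inl n)) hx1)
  have hZc : IsCompact Z := (hTpc.inter hK).isCompact
  have hA0 : IsClosed {x : Q | x j = 0} := isClosed_eq (continuous_apply j) continuous_const
  have hA1 : IsClosed {x : Q | x j = 1} := isClosed_eq (continuous_apply j) continuous_const
  have hA01 : Disjoint {x : Q | x j = 0} {x : Q | x j = 1} := by
    rw [disjoint_left]
    intro x h0 h1
    rw [mem_ofPred_eq] at h0 h1
    rw [h0] at h1
    exact zero_ne_one h1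
  obtain ⟨Z1, Z2, hZ1c, hZ2c, hZ12, hZd, hZP1, hZP2⟩ := (hB.mono hZB).split hZc _ _ hA0 hA1 hA01
  have hZ1s : Z1 ⊆ Z := by rw [← hZ12]; exact subset_union_left
  have hZ2s : Z2 ⊆ Z := by rw [← hZ12]; exact subset_union_right
  have hdis : Disjoint ({x : Q | x j = 0} ∪ Z1) ({x : Q | x j = 1} ∪ Z2) := by
    rw [disjoint_left] at hZd hA01 ⊢
    rintro x (h0 | h0) (h1 | h1)
    · exact hA01 h0 h1
    · exact hZd (hZP1 ⟨hZ2s h1, h0⟩) h1
    · exact hZd h0 (hZP2 ⟨hZ1s h0, h1⟩)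
    · exact hZd h0 h1
  -- separate with disjoint closures
  obtain ⟨G1, hG1o, hG1, hG1c⟩ := normal_exists_closure_subset (hA0.union hZ1c)
    (hA1.union hZ2c).isOpen_compl (subset_compl_iff_disjoint_right.2 hdis)
  obtain ⟨G2, hG2o, hG2, hG2c⟩ := normal_exists_closure_subset (hA1.union hZ2c)
    isClosed_closure.isOpen_compl (subset_compl_comm.1 hG1c)
  have hGd : Disjoint (closure G1) (closure G2) := by
    rw [disjoint_left]
    intro x h1 h2
    exact hG2c h2 h1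
  -- compactness
  have hcomp : ∃ n, closure (V n).1 ∩ ((G1 ∪ G2)ᶜ ∩ K) = ∅ := by
    have hcl : IsClosed ((G1 ∪ G2)ᶜ ∩ K) := (hG1o.union hG2o).isClosed_compl.inter hK
    by_contra hne
    push Not at hne
    have h1 : (⋂ n, closure (V n).1 ∩ ((G1 ∪ G2)ᶜ ∩ K)).Nonempty := by
      apply IsCompact.nonempty_iInter_of_sequence_nonempty_isCompact_isClosed
      · intro n
        exact inter_subset_inter_left _ (hVanti (Nat.le_succ n))
      · exact hne
      · exact (isClosed_closure.inter hcl).isCompact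
      · intro n
        exact isClosed_closure.inter hcl
    obtain ⟨x, hx⟩ := h1
    rw [mem_iInter] at hx
    have hxT : x ∈ Tp := mem_iInter.2 fun n => (hx n).1
    have hxZ : x ∈ Z := ⟨hxT, (hx 0).2.2⟩
    rw [← hZ12] at hxZ
    rcases hxZ with h | h
    · exact (hx 0).2.1 (Or.inl (hG1 (Or.inr h)))
    · exact (hx 0).2.1 (Or.inr (hG2 (Or.inr h)))
  obtain ⟨n, hn⟩ := hcomp
  obtain ⟨T, hT, hTV⟩ := (V n).2.2
  obtain ⟨T', hT', hT'T, hT'1, hT'2⟩ := hT.cut hjD (closure G1) (closure G2) isClosed_closure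
    isClosed_closure hGd (fun x hx => subset_closure (hG1 (Or.inl hx)))
    (fun x hx => subset_closure (hG2 (Or.inl hx)))
  refine ⟨T', hT', fun x hx => ⟨?_, fun hxK => ?_⟩⟩
  · have h1 : x ∈ closure (V n).1 := subset_closure (hTV (hT'T hx))
    rcases Nat.eq_zero_or_pos n with h0 | h0
    · subst h0
      exact hTV (hT'T hx)
    · have h2 : x ∈ closure (V 1).1 := hVanti h0 h1
      exact (hVs 0 h2).1
  · have h1 : x ∈ closure (V n).1 ∩ ((G1 ∪ G2)ᶜ ∩ K) := by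
      refine ⟨subset_closure (hTV (hT'T hx)), ?_, hxK⟩
      rintro (h | h)
      · exact disjoint_left.1 hT'1 hx (subset_closure h)
      · exact disjoint_left.1 hT'2 hx (subset_closure h)
    rw [hn] at h1
    exact h1

end Pool.Agent.Helper520.CD
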