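import Mathlib
import Pool.Agent.Helper520.CD.Core3

set_option autoImplicit false

/-!
The countable decomposition of `E` and the sigma ideal generated by small closed sets.
-/

namespace Pool.Agent.Helper520.CD

open Set TopologicalSpace Filter Topology

/-- The points whose nonzero rational coordinates are prescribed by `s`. -/
def Es (s : Finset (ℕ × ℚ)) : Set Q :=
  {x | (∀ p ∈ s, ((x p.1 : ℝ)) = p.2) ∧ ∀ i, (∀ p ∈ s, p.1 ≠ i) → ((x i : ℝ)) ∉ R}

theorem E_subset : E ⊆ ⋃ s, Es s := by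
  classical
  intro x hx
  have hx' : {i | ((x i : ℝ)) ∈ R}.Finite := hx
  have hch : ∀ i ∈ hx'.toFinset, ∃ q : ℚ, q ≠ 0 ∧ (x i : ℝ) = q := by
    intro i hi
    exact (hx'.mem_toFinset.1 hi)
  choose! q hq1 hq2 using hch
  rw [mem_iUnion]
  refine ⟨hx'.toFinset.image (fun i => (i, q i)), ?_, ?_⟩
  · intro p hp
    obtain ⟨i, hi, rfl⟩ := Finset.mem_image.1 hp
    exact hq2 i hi
  · intro i hi hR
    exact hi (i, q i) (Finset.mem_image.2 ⟨i, hx'.mem_toFinset.2 hR, rfl⟩) rfl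

theorem ZD_of_coord (B : Set Q)
    (h : ∀ (i : ℕ) (a b : ℝ), a < b → ∃ t, a < t ∧ t < b ∧ ∀ x ∈ B, (x i : ℝ) ≠ t) : ZD B := by
  classical
  intro z hz O hO hzO
  obtain ⟨I, u, hu, hIu⟩ := isOpen_pi_iff.1 hO z hzO
  have key : ∀ J : Finset ℕ, J ⊆ I → ∃ V V' : Set Q, IsOpen V ∧ IsOpen V' ∧ z ∈ V ∧
      V ∩ B ⊆ (J : Set ℕ).pi u ∧ B ⊆ V ∪ V' ∧ V ∩ V' ∩ B = ∅ := by
    intro J
    induction J using Finset.induction_on with
    | empty =>
      intro _
      exact ⟨univ, ∅, isOpen_univ, isOpen_empty, mem_univ _, by simp, by simp, by simp⟩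
    | insert i J hiJ ih =>
      intro hJ
      obtain ⟨V, V', h1, h2, h3, h4, h5, h6⟩ := ih ((Finset.subset_insert _ _).trans hJ)
      have hiI : i ∈ I := hJ (Finset.mem_insert_self _ _)
      obtain ⟨ε, hε, hball⟩ := Metric.isOpen_iff.1 (hu i hiI).1 _ (hu i hiI).2
      obtain ⟨a, ha1, ha2, ha3⟩ := h i ((z i : ℝ) - ε) (z i) (by linarith)
      obtain ⟨b, hb1, hb2, hb3⟩ := h i (z i : ℝ) (z i + ε) (by linarith)
      have hc : Continuous (fun y : Q => (y i : ℝ)) :=
        continuous_subtype_val.comp (continuous_apply i)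
      refine ⟨V ∩ {y | a < y i ∧ (y i : ℝ) < b}, V' ∪ {y | (y i : ℝ) < a ∨ b < y i}, ?_, ?_, ?_,
        ?_, ?_, ?_⟩
      · exact h1.inter ((isOpen_lt continuous_const hc).inter (isOpen_lt hc continuous_const))
      · exact h2.union ((isOpen_lt hc continuous_const).union (isOpen_lt continuous_const hc))
      · exact ⟨h3, ha2, hb1⟩
      · rintro y ⟨⟨hy1, hy2, hy3⟩, hyB⟩ l hl
        rw [Finset.mem_coe, Finset.mem_insert] at hl
        rcases hl with rfl | hl
        · apply hball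
          rw [Metric.mem_ball, Subtype.dist_eq, Real.dist_eq, abs_lt]
          constructor <;> linarith
        · exact h4 ⟨hy1, hyB⟩ l hl
      · intro y hy
        rcases h5 hy with h | h
        · rcases lt_trichotomy (y i : ℝ) a with h' | h' | h'
          · exact Or.inr (Or.inr (Or.inl h'))
          · exact absurd h' (ha3 y hy)
          · rcases lt_trichotomy (y i : ℝ) b with h'' | h'' | h''
            · exact Or.inl ⟨h, h', h''⟩
            · exact absurd h'' (hb3 y hy)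
            · exact Or.inr (Or.inr (Or.inr h''))
        · exact Or.inr (Or.inl h)
      · rw [eq_empty_iff_forall_notMem] at h6 ⊢
        rintro y ⟨⟨⟨hy1, hy2, hy3⟩, hy4 | hy4⟩, hyB⟩
        · exact h6 y ⟨⟨hy1, hy4⟩, hyB⟩
        · rcases hy4 with h | h <;> linarith
  obtain ⟨V, V', h1, h2, h3, h4, h5, h6⟩ := key I subset_rfl
  exact ⟨V, V', h1, h2, h3, h4.trans hIu, h5, h6⟩

theorem Es_ZD (s : Finset (ℕ × ℚ)) : ZD (Es s) := by
  apply ZD_of_coord
  intro i a b hab
  by_cases hi : ∀ p ∈ s, p.1 ≠ i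
  · by_cases ha : 0 ≤ a
    · obtain ⟨q, hq1, hq2⟩ := exists_rat_btwn hab
      refine ⟨q, hq1, hq2, fun x hx h => ?_⟩
      refine hx.2 i hi ⟨q, ?_, h⟩
      rintro rfl
      simp at hq1
      linarith
    · push Not at ha
      obtain ⟨q, hq1, hq2⟩ := exists_rat_btwn (show a < min b 0 from lt_min hab ha)
      refine ⟨q, hq1, hq2.trans_le (min_le_left _ _), fun x hx h => ?_⟩
      refine hx.2 i hi ⟨q, ?_, h⟩
      rintro rfl
      have := hq2.trans_le (min_le_right _ _)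
      simp at this
  · push Not at hi
    obtain ⟨p, hp, hpi⟩ := hi
    obtain ⟨t, ht1, ht2⟩ := exists_between hab
    obtain ⟨t', ht1', ht2'⟩ := exists_between ht2
    by_cases htp : t = p.2
    · refine ⟨t', ht1.trans ht1', ht2', fun x hx h => ?_⟩
      have h1 := hx.1 p hp
      rw [hpi, h, ← htp] at h1
      linarith
    · refine ⟨t, ht1, ht2, fun x hx h => ?_⟩
      have h1 := hx.1 p hp
      rw [hpi, h] at h1
      exact htp h1

theorem Es_gdelta (s : Finset (ℕ × ℚ)) : IsGδ (Es s) := by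
  have h1 : Es s = (⋂ p ∈ s, {x : Q | ((x p.1 : ℝ)) = p.2}) ∩
      ⋂ i : ℕ, ⋂ q : ℚ, {x : Q | (∀ p ∈ s, p.1 ≠ i) → q ≠ 0 → ((x i : ℝ)) ≠ q} := by
    ext x
    simp only [Es, R, mem_ofPred_eq, mem_inter_iff, mem_iInter, not_exists, not_and]
    constructor
    · rintro ⟨h1, h2⟩
      exact ⟨h1, fun i q hi hq => h2 i hi q hq⟩
    · rintro ⟨h1, h2⟩
      exact ⟨h1, fun i hi q hq => h2 i q hi hq⟩
  rw [h1]
  have hc : ∀ i, Continuous (fun y : Q => (y i : ℝ)) := fun i =>
    continuous_subtype_val.comp (continuous_apply i)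
  apply IsGδ.inter
  · apply IsClosed.isGδ
    exact isClosed_biInter fun p _ => isClosed_eq (hc _) continuous_const
  · refine IsGδ.iInter fun i => IsGδ.iInter fun q => IsOpen.isGδ ?_
    by_cases hi : ∀ p ∈ s, p.1 ≠ i
    · by_cases hq : q ≠ 0
      · have : {x : Q | (∀ p ∈ s, p.1 ≠ i) → q ≠ 0 → ((x i : ℝ)) ≠ q} =
            {x : Q | ((x i : ℝ)) ≠ q} := by
          ext x
          simp only [mem_ofPred_eq]
          exact ⟨fun h => h hi hq, fun h _ _ => h⟩
        rw [this]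
        exact isOpen_ne_fun (hc i) continuous_const
      · have : {x : Q | (∀ p ∈ s, p.1 ≠ i) → q ≠ 0 → ((x i : ℝ)) ≠ q} = univ := by
          ext x
          simp only [mem_ofPred_eq, mem_univ, iff_true]
          exact fun _ h => absurd h hq
        rw [this]
        exact isOpen_univ
    · have : {x : Q | (∀ p ∈ s, p.1 ≠ i) → q ≠ 0 → ((x i : ℝ)) ≠ q} = univ := by
        ext x
        simp only [mem_ofPred_eq, mem_univ, iff_true]
        exact fun h => absurd h hi
      rw [this]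
      exact isOpen_univ

/-- The sigma ideal generated by the small closed sets. -/
def JS (A : Set Q) : Prop :=
  ∃ C : ℕ → Set Q, (∀ n, IsClosed (C n) ∧ Small (C n)) ∧ A ⊆ ⋃ n, C n

theorem JS.mono {A B : Set Q} (h : JS B) (hAB : A ⊆ B) : JS A := by
  obtain ⟨C, h1, h2⟩ := h
  exact ⟨C, h1, hAB.trans h2⟩

theorem JS_iUnion {ι : Type*} [Countable ι] [Nonempty ι] (A : ι → Set Q) (h : ∀ i, JS (A i)) :
    JS (⋃ i, A i) := by
  choose C hC1 hC2 using h
  obtain ⟨g, hg⟩ := exists_surjective_nat (ι × ℕ)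
  refine ⟨fun n => C (g n).1 (g n).2, fun n => hC1 _ _, ?_⟩
  intro x hx
  obtain ⟨i, hi⟩ := mem_iUnion.1 hx
  obtain ⟨m, hm⟩ := mem_iUnion.1 (hC2 i hi)
  obtain ⟨n, hn⟩ := hg (i, m)
  refine mem_iUnion.2 ⟨n, ?_⟩
  simpa [hn] using hm

theorem small_empty : Small ∅ := by
  intro D U _ hE
  simpa using hE

theorem JS_of_small {K : Set Q} (hK : IsClosed K) (h : Small K) : JS K :=
  ⟨fun _ => K, fun _ => ⟨hK, h⟩, fun _ hx => mem_iUnion.2 ⟨0, hx⟩⟩

theorem JS.union {A B : Set Q} (hA : JS A) (hB : JS B) : JS (A ∪ B) := by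
  rw [union_eq_iUnion]
  apply JS_iUnion
  rintro (_ | _)
  · exact hB
  · exact hA

theorem small_of_ZD {K : Set Q} (hK : IsClosed K) (h : ZD K) : Small K := by
  refine small_of_cover K hK (fun _ => ∅) (fun _ => isClosed_empty) (fun _ => small_empty) K h ?_
  exact fun x hx => Or.inl hx.1

theorem small_singleton (x : Q) : Small {x} := by
  apply small_of_ZD isClosed_singleton
  intro z hz O hO hzO
  refine ⟨univ, ∅, isOpen_univ, isOpen_empty, mem_univ _, ?_, by simp, by simp⟩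
  rintro y ⟨_, hy⟩
  rw [mem_singleton_iff] at hz hy
  rw [hy, ← hz]
  exact hzO

theorem exists_not_JS {K : Set Q} (hK : IsClosed K) (h : ¬ Small K) : ∃ s, ¬ JS (K ∩ Es s) := by
  by_contra hc
  push Not at hc
  apply h
  obtain ⟨C, hC1, hC2⟩ := JS_iUnion _ hc
  refine small_of_cover K hK C (fun n => (hC1 n).1) (fun n => (hC1 n).2) ∅ ?_ ?_
  · intro z hz
    exact absurd hz (by simp)
  · rintro x ⟨hx1, hx2⟩
    right
    apply hC2
    obtain ⟨s, hs⟩ := mem_iUnion.1 (E_subset hx2)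
    exact mem_iUnion.2 ⟨s, hx1, hs⟩

end Pool.Agent.Helper520.CD
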