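import Mathlib
import Pool.Agent.Helper520.CD.Core4
import Pool.Agent.Helper520.CD.Myc

set_option autoImplicit false

/-!
Choosing a point of a big closed set off fewer than continuum many thin sets.
-/

namespace Pool.Agent.Helper520.CD

open Set TopologicalSpace Filter Topology

theorem gdelta_cm {A : Set Q} (h : IsGδ A) : IsCompletelyMetrizableSpace A := by
  obtain ⟨U, hU, rfl⟩ := h.eq_iInter_nat
  have hP : ∀ n, PolishSpace (U n) := fun n => (hU n).polishSpace
  let f : (⋂ n, U n : Set Q) → (∀ n, U n) := fun x n => ⟨x.1, mem_iInter.1 x.2 n⟩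
  have hfc : Continuous f := continuous_pi fun n => continuous_subtype_val.subtype_mk _
  have hf : IsClosedEmbedding f := by
    refine ⟨?_, ?_⟩
    · apply Topology.IsEmbedding.of_comp hfc
        (show Continuous (fun y : (∀ n, U n) => ((y 0 : U 0) : Q)) from
          continuous_subtype_val.comp (continuous_apply 0))
      exact Topology.IsEmbedding.subtypeVal
    · have : range f = ⋂ n, {y : ∀ n, U n | ((y n : U n) : Q) = ((y 0 : U 0) : Q)} := by
        ext y
        constructor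
        · rintro ⟨x, rfl⟩
          exact mem_iInter.2 fun n => rfl
        · intro hy
          rw [mem_iInter] at hy
          refine ⟨⟨((y 0 : U 0) : Q), mem_iInter.2 fun n => ?_⟩, ?_⟩
          · have h1 : ((y n : U n) : Q) = ((y 0 : U 0) : Q) := hy n
            rw [← h1]
            exact (y n).2
          · funext n
            exact Subtype.ext (hy n).symm
      rw [this]
      exact isClosed_iInter fun n => isClosed_eq
        (continuous_subtype_val.comp (continuous_apply n))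
        (continuous_subtype_val.comp (continuous_apply 0))
  exact hf.IsCompletelyMetrizableSpace

theorem choose_point (K : Set Q) (hK : IsClosed K) (hbig : ¬ Small K) {ι : Type}
    (hι : Cardinal.mk ι < Cardinal.continuum) (L : ι → Set Q)
    (hL : ∀ β, IsClosed (L β) ∧ Small (L β)) (t : ι → ℕ → ℝ) (c : ℕ → ℕ)
    (ht : ∀ i, Function.Injective (fun β => t β i)) :
    ∃ x ∈ K ∩ ⋃ s, Es s, ∀ β i, ¬ (x ∈ L β ∧ (x (c i) : ℝ) = t β i) := by
  classical
  obtain ⟨s, hs⟩ := exists_not_JS hK hbig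
  set Y := K ∩ Es s with hY
  let 𝓑 := countableBasis Q
  have h𝓑 : IsTopologicalBasis 𝓑 := isBasis_countableBasis Q
  have h𝓑c : 𝓑.Countable := countable_countableBasis Q
  let 𝓑' : Set (Set Q) := {V | V ∈ 𝓑 ∧ JS (V ∩ Y)}
  have h𝓑'c : 𝓑'.Countable := h𝓑c.mono fun V hV => hV.1
  set G := Y \ ⋃₀ 𝓑' with hG
  have hrest : JS (Y ∩ ⋃₀ 𝓑') := by
    have h0 : JS (∅ : Set Q) := JS_of_small isClosed_empty small_empty
    have : Countable 𝓑' := h𝓑'c.to_subtype
    have h1 : JS (⋃ i : Option 𝓑', (match i with | none => ∅ | some V => V.1 ∩ Y)) := by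
      apply JS_iUnion
      rintro (_ | V)
      · exact h0
      · exact V.2.2
    refine h1.mono ?_
    rintro x ⟨hx, V, hV, hxV⟩
    exact mem_iUnion.2 ⟨some ⟨V, hV⟩, hxV, hx⟩
  have hYG : Y ⊆ G ∪ (Y ∩ ⋃₀ 𝓑') := by
    intro x hx
    by_cases h : x ∈ ⋃₀ 𝓑'
    · exact Or.inr ⟨hx, h⟩
    · exact Or.inl ⟨hx, h⟩
  have hpos : ∀ V : Set Q, IsOpen V → (V ∩ G).Nonempty → ¬ JS (V ∩ G) := by
    rintro V hV ⟨x, hxV, hxG⟩ hJ
    obtain ⟨V', hV', hxV', hV'V⟩ := h𝓑.exists_subset_of_mem_open hxV hV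
    apply hxG.2
    refine ⟨V', ⟨hV', ?_⟩, hxV'⟩
    refine (hJ.union hrest).mono ?_
    rintro y ⟨hy1, hy2⟩
    rcases hYG hy2 with h | h
    · exact Or.inl ⟨hV'V hy1, h⟩
    · exact Or.inr h
  have hGne : G.Nonempty := by
    by_contra hc
    rw [not_nonempty_iff_eq_empty] at hc
    apply hs
    refine hrest.mono ?_
    rw [hc, empty_union] at hYG
    exact hYG
  have hGd : IsGδ G := by
    have h1 : IsGδ Y := hK.isGδ.inter (Es_gdelta s)
    have h2 : IsClosed (⋃₀ 𝓑')ᶜ :=
      (isOpen_sUnion fun V hV => h𝓑.isOpen hV.1).isClosed_compl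
    have : G = Y ∩ (⋃₀ 𝓑')ᶜ := rfl
    rw [this]
    exact h1.inter h2.isGδ
  have hGcm := gdelta_cm hGd
  have : Nonempty G := hGne.to_subtype
  -- local constancy
  let co : ℕ → G → ℝ := fun i x => (x.1 (c i) : ℝ)
  have hco : ∀ i, Continuous (co i) := fun i =>
    continuous_subtype_val.comp ((continuous_apply _).comp continuous_subtype_val)
  let Ul : ℕ → Set G := fun i => {x | ∀ᶠ y in 𝓝 x, co i y = co i x}
  have hUlo : ∀ i, IsOpen (Ul i) := by
    intro i
    rw [isOpen_iff_mem_nhds]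
    intro x hx
    have h1 : ∀ᶠ y in 𝓝 x, ∀ᶠ z in 𝓝 y, co i z = co i x := eventually_eventually_nhds.2 hx
    filter_upwards [h1] with y hy
    have h2 : co i y = co i x := hy.self_of_nhds
    show ∀ᶠ z in 𝓝 y, co i z = co i y
    rw [h2]
    exact hy
  have hUlc : ∀ i, (co i '' (Ul i)).Countable := by
    intro i
    -- each value is attained on an open set
    have hsep : SecondCountableTopology G := inferInstance
    let 𝓒 := countableBasis G
    have h𝓒 : IsTopologicalBasis 𝓒 := isBasis_countableBasis G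
    have h𝓒c : 𝓒.Countable := countable_countableBasis G
    have h1 : ∀ r ∈ co i '' (Ul i), ∃ V ∈ 𝓒, V.Nonempty ∧ ∀ y ∈ V, co i y = r := by
      rintro r ⟨x, hx, rfl⟩
      obtain ⟨W, hW1, hW2, hW3⟩ := eventually_nhds_iff.1 hx
      obtain ⟨V, hV, hxV, hVW⟩ := h𝓒.exists_subset_of_mem_open hW3 hW2
      exact ⟨V, hV, ⟨x, hxV⟩, fun y hy => hW1 y (hVW hy)⟩
    choose! V hV1 hV2 hV3 using h1
    apply MapsTo.countable_of_injOn (f := V) (t := 𝓒) (fun r hr => hV1 r hr) ?_ h𝓒c
    intro r hr r' hr' hrr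
    obtain ⟨y, hy⟩ := hV2 r hr
    rw [← hV3 r hr y hy, ← hV3 r' hr' y (by rw [← hrr]; exact hy)]
  -- relevant indices
  let Γ : Set ι := {β | ∃ i, t β i ∈ co i '' (Ul i)}
  have hΓ : Γ.Countable := by
    have : Γ = ⋃ i, (fun β => t β i) ⁻¹' (co i '' (Ul i)) := by
      ext β; simp [Γ]
    rw [this]
    exact countable_iUnion fun i => (hUlc i).preimage (ht i)
  -- small closed sets have empty interior in G
  have hnd : ∀ β, Dense {x : G | x.1 ∉ L β} := by
    intro β
    rw [dense_iff_inter_open]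
    intro V hV hVne
    by_contra hc
    rw [not_nonempty_iff_eq_empty, eq_empty_iff_forall_notMem] at hc
    obtain ⟨W, hW, rfl⟩ := isOpen_induced_iff.1 hV
    obtain ⟨x, hx⟩ := hVne
    apply hpos W hW ⟨x.1, hx, x.2⟩
    refine (JS_of_small (hL β).1 (hL β).2).mono ?_
    rintro y ⟨hy1, hy2⟩
    by_contra hy3
    exact hc ⟨y, hy2⟩ ⟨hy1, hy3⟩
  have hnp : ∀ x : G, Dense {y : G | y ≠ x} := by
    intro x
    rw [dense_iff_inter_open]
    intro V hV hVne
    by_contra hc
    rw [not_nonempty_iff_eq_empty, eq_empty_iff_forall_notMem] at hc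
    obtain ⟨W, hW, rfl⟩ := isOpen_induced_iff.1 hV
    obtain ⟨z, hz⟩ := hVne
    apply hpos W hW ⟨z.1, hz, z.2⟩
    refine (JS_of_small isClosed_singleton (small_singleton x.1)).mono ?_
    rintro y ⟨hy1, hy2⟩
    by_contra hy3
    refine hc ⟨y, hy2⟩ ⟨hy1, fun h => hy3 ?_⟩
    rw [← h]
    rfl
  -- the dense open relations
  have hΓ' : Countable Γ := hΓ.to_subtype
  let J := Unit ⊕ (Γ ⊕ ℕ)
  let W : J → Set (G × G) := Sum.elim (fun _ => {p | p.1 ≠ p.2})
    (Sum.elim (fun β => {p | p.1.1 ∉ L β.1}) (fun i => {p | p.1 ∈ Ul i ∨ p.2 ∈ Ul i ∨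
      co i p.1 ≠ co i p.2}))
  have hWo : ∀ j, IsOpen (W j) := by
    rintro (_ | β | i)
    · exact isOpen_ne_fun continuous_fst continuous_snd
    · exact ((hL β.1).1.isOpen_compl.preimage (continuous_subtype_val.comp continuous_fst))
    · have : W (Sum.inr (Sum.inr i)) = (Prod.fst ⁻¹' (Ul i)) ∪ (Prod.snd ⁻¹' (Ul i)) ∪
          {p | co i p.1 ≠ co i p.2} := by
        ext p
        simp only [W, Sum.elim_inr, mem_ofPred_eq, mem_union, mem_preimage, or_assoc]
      rw [this]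
      exact (((hUlo i).preimage continuous_fst).union ((hUlo i).preimage continuous_snd)).union
        (isOpen_ne_fun ((hco i).comp continuous_fst) ((hco i).comp continuous_snd))
  have hprod : ∀ A : Set (G × G), (∀ V V' : Set G, IsOpen V → IsOpen V' → V.Nonempty →
      V'.Nonempty → ∃ x ∈ V, ∃ y ∈ V', (x, y) ∈ A) → Dense A := by
    intro A hA
    rintro ⟨x, y⟩
    rw [mem_closure_iff_nhds]
    intro N hN
    rw [nhds_prod_eq, mem_prod_iff] at hN
    obtain ⟨N1, hN1, N2, hN2, hN12⟩ := hN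
    obtain ⟨V1, hV1, hV1o, hx⟩ := mem_nhds_iff.1 hN1
    obtain ⟨V2, hV2, hV2o, hy⟩ := mem_nhds_iff.1 hN2
    obtain ⟨a, ha, b, hb, hab⟩ := hA V1 V2 hV1o hV2o ⟨x, hx⟩ ⟨y, hy⟩
    exact ⟨(a, b), hN12 ⟨hV1 ha, hV2 hb⟩, hab⟩
  have hWd : ∀ j, Dense (W j) := by
    rintro (_ | β | i)
    · apply hprod
      rintro V V' hV hV' ⟨x, hx⟩ hne'
      obtain ⟨y, hy1, hy2⟩ := (hnp x).inter_open_nonempty V' hV' hne'
      exact ⟨x, hx, y, hy1, fun h => hy2 h.symm⟩
    · apply hprod
      rintro V V' hV hV' hne ⟨y, hy⟩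
      obtain ⟨x, hx1, hx2⟩ := (hnd β.1).inter_open_nonempty V hV hne
      exact ⟨x, hx1, y, hy, hx2⟩
    · apply hprod
      rintro V V' hV hV' ⟨x, hx⟩ ⟨y, hy⟩
      by_cases hxU : x ∈ Ul i
      · exact ⟨x, hx, y, hy, Or.inl hxU⟩
      · have h1 : ∃ x' ∈ V, co i x' ≠ co i x := by
          by_contra hc
          push Not at hc
          apply hxU
          exact eventually_nhds_iff.2 ⟨V, hc, hV, hx⟩
        obtain ⟨x', hx', hne⟩ := h1
        by_cases h2 : co i x = co i y
        · exact ⟨x', hx', y, hy, Or.inr (Or.inr (by rw [← h2]; exact hne))⟩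
        · exact ⟨x, hx, y, hy, Or.inr (Or.inr h2)⟩
  have : Nonempty J := ⟨Sum.inl ()⟩
  obtain ⟨g, hg⟩ := exists_surjective_nat J
  obtain ⟨h, hh⟩ := mycielski' (fun n => W (g n)) (fun n => hWo _) (fun n => hWd _)
  have hhW : ∀ b b', b ≠ b' → ∀ j, (h b, h b') ∈ W j := by
    intro b b' hbb j
    obtain ⟨n, rfl⟩ := hg j
    exact hh b b' hbb n
  by_contra hc
  push Not at hc
  have hbad : ∀ b : ℕ → Bool, ∃ p : ι × ℕ, (h b).1 ∈ L p.1 ∧ co p.2 (h b) = t p.1 p.2 := by
    intro b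
    obtain ⟨β, i, h1, h2⟩ := hc (h b).1 ⟨(h b).2.1.1, mem_iUnion.2 ⟨s, (h b).2.1.2⟩⟩
    exact ⟨(β, i), h1, h2⟩
  choose p hp1 hp2 using hbad
  have hnotUl : ∀ b, h b ∉ Ul (p b).2 := by
    intro b hb
    have h1 : (p b).1 ∈ Γ := ⟨(p b).2, h b, hb, hp2 b⟩
    have hne : b ≠ fun i => !(b i) := by
      intro h
      have := congrFun h 0
      simp at this
    exact hhW b _ hne (Sum.inr (Sum.inl ⟨_, h1⟩)) (hp1 b)
  have hinj : Function.Injective p := by
    intro b b' hbb
    by_contra hne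
    rcases hhW b b' hne (Sum.inr (Sum.inr (p b).2)) with h1 | h1 | h1
    · exact hnotUl b h1
    · apply hnotUl b'
      rw [← hbb]
      exact h1
    · apply h1
      show co (p b).2 (h b) = co (p b).2 (h b')
      have h2 := hp2 b
      have h3 := hp2 b'
      rw [← hbb] at h3
      rw [h2, h3]
  have hcard := Cardinal.mk_le_of_injective hinj
  have h1 : Cardinal.mk (ℕ → Bool) = Cardinal.continuum := by
    simp
  rw [h1, Cardinal.mk_prod] at hcard
  simp only [Cardinal.lift_id, Cardinal.mk_eq_aleph0] at hcard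
  have h2 : Cardinal.mk ι * Cardinal.aleph0 < Cardinal.continuum :=
    Cardinal.mul_lt_of_lt Cardinal.aleph0_le_continuum hι Cardinal.aleph0_lt_continuum
  exact absurd hcard (not_le.2 h2)

end Pool.Agent.Helper520.CD
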