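import Mathlib
import Pool.Agent.Helper520.CD.Choose

set_option autoImplicit false

/-!
The transfinite construction.
-/

namespace Pool.Agent.Helper520.CD

open Set TopologicalSpace Filter Topology

theorem mk_closed_le : Cardinal.mk {K : Set Q // IsClosed K} ≤ Cardinal.continuum := by
  classical
  let 𝓑 := countableBasis Q
  have h𝓑 : IsTopologicalBasis 𝓑 := isBasis_countableBasis Q
  have h𝓑c : Countable 𝓑 := (countable_countableBasis Q).to_subtype
  let f : {K : Set Q // IsClosed K} → Set 𝓑 := fun K => {V | V.1 ⊆ K.1ᶜ}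
  have hf : Function.Injective f := by
    rintro ⟨K, hK⟩ ⟨L, hL⟩ h
    apply Subtype.ext
    rw [← compl_inj_iff]
    have key : ∀ (K L : {K : Set Q // IsClosed K}), f K ⊆ f L → K.1ᶜ ⊆ L.1ᶜ := by
      intro K L hKL x hx
      obtain ⟨V, hV, hxV, hVK⟩ := h𝓑.exists_subset_of_mem_open hx K.2.isOpen_compl
      have : (⟨V, hV⟩ : 𝓑) ∈ f L := hKL hVK
      exact this hxV
    exact Subset.antisymm (key ⟨K, hK⟩ ⟨L, hL⟩ h.subset) (key ⟨L, hL⟩ ⟨K, hK⟩ h.symm.subset)
  have h1 := Cardinal.mk_le_of_injective hf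
  refine h1.trans ?_
  rw [Cardinal.mk_set, ← Cardinal.two_power_aleph0]
  exact Cardinal.power_le_power_left two_ne_zero Cardinal.mk_le_aleph0

theorem exists_real_avoid {κ : Type} (hκ : Cardinal.mk κ < Cardinal.continuum) (f : κ → ℝ)
    {a b : ℝ} (hab : a < b) : ∃ r, a < r ∧ r < b ∧ ∀ k, f k ≠ r := by
  by_contra hc
  push Not at hc
  have h1 : Ioo a b ⊆ range f := by
    rintro r ⟨h1, h2⟩
    exact hc r h1 h2
  have h2 := Cardinal.mk_le_mk_of_subset h1
  rw [Cardinal.mk_Ioo_real hab] at h2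
  have h3 : Cardinal.mk (range f) ≤ Cardinal.mk κ := Cardinal.mk_range_le
  exact absurd (h2.trans h3) (not_le.2 hκ)

theorem construction : ∃ X : Set Q, X ⊆ (⋃ s, Es s) ∧
    (∀ K : Set Q, IsClosed K → ¬ Small K → (X ∩ K).Nonempty) ∧
    (∀ K : Set Q, IsClosed K → Small K → ∀ (i : ℕ) (a b : ℝ), a < b →
      ∃ t, a < t ∧ t < b ∧ ∀ x ∈ X ∩ K, (x i : ℝ) ≠ t) := by
  classical
  -- the index set of the recursion
  let ι : Type := Cardinal.continuum.{0}.ord.ToType
  have hι : Cardinal.mk ι = Cardinal.continuum := Cardinal.mk_ord_toType _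
  have hIio : ∀ k : ι, Cardinal.mk (Iio k) < Cardinal.continuum :=
    fun k => by
      have h := Cardinal.mk_Iio_lt k (by rw [hι]; exact (Ordinal.type_toType _).symm)
      rwa [hι] at h
  have hne : Nonempty {K : Set Q // IsClosed K} := ⟨⟨∅, isClosed_empty⟩⟩
  have hsurj : ∃ e : ι → {K : Set Q // IsClosed K}, Function.Surjective e := by
    have h1 : Cardinal.mk {K : Set Q // IsClosed K} ≤ Cardinal.mk ι := by
      rw [hι]; exact mk_closed_le
    obtain ⟨f⟩ := Cardinal.le_def _ _ |>.1 h1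
    exact ⟨Function.invFun f, Function.invFun_surjective f.injective⟩
  obtain ⟨e, he⟩ := hsurj
  -- the countable set of requirements
  have hne2 : Nonempty (ℕ × {p : ℚ × ℚ // p.1 < p.2}) := ⟨(0, ⟨(0, 1), by norm_num⟩)⟩
  obtain ⟨req, hreq⟩ := exists_surjective_nat (ℕ × {p : ℚ × ℚ // p.1 < p.2})
  let c : ℕ → ℕ := fun n => (req n).1
  let a : ℕ → ℝ := fun n => (((req n).2.1.1 : ℚ) : ℝ)
  let b : ℕ → ℝ := fun n => (((req n).2.1.2 : ℚ) : ℝ)
  have hab : ∀ n, a n < b n := fun n => by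
    have := (req n).2.2
    show (((req n).2.1.1 : ℚ) : ℝ) < (((req n).2.1.2 : ℚ) : ℝ)
    exact_mod_cast this
  let Good : ∀ k : ι, (∀ l, l < k → Q × (ℕ → ℝ)) → Q × (ℕ → ℝ) → Prop := fun k prev d =>
    (¬ Small (e k).1 → d.1 ∈ (e k).1 ∩ (⋃ s, Es s) ∧ ∀ l (hl : l < k), Small (e l).1 →
      ∀ n, ¬ (d.1 ∈ (e l).1 ∧ (d.1 (c n) : ℝ) = (prev l hl).2 n)) ∧
    ∀ n, a n < d.2 n ∧ d.2 n < b n ∧ ∀ l (hl : l < k), (prev l hl).2 n ≠ d.2 n ∧
      ((prev l hl).1 (c n) : ℝ) ≠ d.2 n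
  have hGood : ∀ (k : ι) (prev : ∀ l, l < k → Q × (ℕ → ℝ)),
      (∀ n, Function.Injective (fun l : Iio k => (prev l.1 l.2).2 n)) → ∃ d, Good k prev d := by
    intro k prev hinj
    have hx : ∃ x : Q, ¬ Small (e k).1 → x ∈ (e k).1 ∩ (⋃ s, Es s) ∧ ∀ l (hl : l < k),
        Small (e l).1 → ∀ n, ¬ (x ∈ (e l).1 ∧ (x (c n) : ℝ) = (prev l hl).2 n) := by
      by_cases hS : Small (e k).1
      · exact ⟨fun _ => 0, fun h => absurd hS h⟩
      · let ι' := {l : Iio k // Small (e l.1).1}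
        have hι' : Cardinal.mk ι' < Cardinal.continuum :=
          (Cardinal.mk_subtype_le _).trans_lt (hIio k)
        obtain ⟨x, hx1, hx2⟩ := choose_point (e k).1 (e k).2 hS hι' (fun l => (e l.1.1).1)
          (fun l => ⟨(e l.1.1).2, l.2⟩) (fun l n => (prev l.1.1 l.1.2).2 n) c (by
            intro n l l' h
            exact Subtype.ext (hinj n h))
        exact ⟨x, fun _ => ⟨hx1, fun l hl hs n => hx2 ⟨⟨l, hl⟩, hs⟩ n⟩⟩
    have ht : ∀ n, ∃ r : ℝ, a n < r ∧ r < b n ∧ ∀ l (hl : l < k), (prev l hl).2 n ≠ r ∧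
        ((prev l hl).1 (c n) : ℝ) ≠ r := by
      intro n
      have hκ : Cardinal.mk (Iio k ⊕ Iio k) < Cardinal.continuum := by
        rw [Cardinal.mk_sum]
        simp only [Cardinal.lift_id]
        exact Cardinal.add_lt_of_lt Cardinal.aleph0_le_continuum (hIio k) (hIio k)
      obtain ⟨r, h1, h2, h3⟩ := exists_real_avoid hκ
        (Sum.elim (fun l => (prev l.1 l.2).2 n) (fun l => ((prev l.1 l.2).1 (c n) : ℝ))) (hab n)
      exact ⟨r, h1, h2, fun l hl => ⟨h3 (Sum.inl ⟨l, hl⟩), h3 (Sum.inr ⟨l, hl⟩)⟩⟩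
    obtain ⟨x, hx⟩ := hx
    choose r hr using ht
    exact ⟨(x, r), hx, hr⟩
  -- the recursion
  let F : ∀ k : ι, (∀ l, l < k → Q × (ℕ → ℝ)) → Q × (ℕ → ℝ) := fun k prev =>
    if h : ∃ d, Good k prev d then Classical.choose h else (fun _ => 0, fun _ => 0)
  have hwf : WellFounded (fun l k : ι => l < k) := wellFounded_lt
  let dat : ι → Q × (ℕ → ℝ) := hwf.fix F
  have hdat : ∀ k, dat k = F k (fun l _ => dat l) := fun k => hwf.fix_eq F k
  have hall : ∀ k, Good k (fun l _ => dat l) (dat k) := by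
    intro k
    induction k using hwf.induction with
    | _ k ih =>
      have hex : ∃ d, Good k (fun l _ => dat l) d := by
        apply hGood
        intro n l l' h
        by_contra hne
        rcases lt_trichotomy l.1 l'.1 with h1 | h1 | h1
        · exact (((ih l'.1 l'.2).2 n).2.2 l.1 h1).1 h
        · exact hne (Subtype.ext h1)
        · exact (((ih l.1 l.2).2 n).2.2 l'.1 h1).1 h.symm
      have h2 : F k (fun l _ => dat l) = Classical.choose hex := by
        simp only [F]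
        rw [dif_pos hex]
      rw [hdat k, h2]
      exact Classical.choose_spec hex
  refine ⟨{x | ∃ k, ¬ Small (e k).1 ∧ x = (dat k).1}, ?_, ?_, ?_⟩
  · rintro x ⟨k, hk, rfl⟩
    exact ((hall k).1 hk).1.2
  · intro K hK hKs
    obtain ⟨k, hk⟩ := he ⟨K, hK⟩
    have hk' : ¬ Small (e k).1 := by rw [hk]; exact hKs
    refine ⟨(dat k).1, ⟨k, hk', rfl⟩, ?_⟩
    have := ((hall k).1 hk').1.1
    rw [hk] at this
    exact this
  · intro K hK hKs i a' b' hab'
    obtain ⟨k, hk⟩ := he ⟨K, hK⟩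
    obtain ⟨p, hp1, hp2⟩ := exists_rat_btwn hab'
    obtain ⟨q, hq1, hq2⟩ := exists_rat_btwn hp2
    obtain ⟨n, hn⟩ := hreq (i, ⟨(p, q), by exact_mod_cast hq1⟩)
    have hcn : c n = i := by simp only [c, hn]
    have han : a n = p := by simp only [a, hn]
    have hbn : b n = q := by simp only [b, hn]
    obtain ⟨h1, h2, h3⟩ := (hall k).2 n
    rw [han] at h1
    rw [hbn] at h2
    refine ⟨(dat k).2 n, hp1.trans h1, h2.trans hq2, ?_⟩
    rintro x ⟨⟨l, hl, rfl⟩, hxK⟩ heq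
    have hlk : l ≠ k := by
      rintro rfl
      apply hl
      rw [hk]
      exact hKs
    rcases lt_or_gt_of_ne hlk with h | h
    · apply (h3 l h).2
      rw [hcn]
      exact heq
    · have hks : Small (e k).1 := by rw [hk]; exact hKs
      apply ((hall l).1 hl).2 k h hks n
      refine ⟨by rw [hk]; exact hxK, ?_⟩
      rw [hcn]
      exact heq

end Pool.Agent.Helper520.CD
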