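import Mathlib
import Pool.Agent.Helper520.CD.Constr

set_option autoImplicit false

/-!
Dimension theoretic conclusion.
-/

namespace Pool.Agent.Helper520.CD

open Set TopologicalSpace Filter Topology

/-- `PP k B` says that the large inductive dimension of `B` is less than `k`. -/
def PP {X : Type*} [TopologicalSpace X] : ℕ → Set X → Prop
  | 0, B => B = ∅
  | (k + 1), B => ∀ C U : Set X, IsClosed C → IsOpen U → C ∩ B ⊆ U →
      ∃ V : Set X, IsOpen V ∧ C ∩ B ⊆ V ∧ closure (V ∩ B) ∩ B ⊆ U ∧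
        PP k ((closure (V ∩ B) ∩ B) \ V)

theorem PP_closed {X : Type*} [TopologicalSpace X] (k : ℕ) : ∀ (A B F : Set X), IsClosed F →
    A = B ∩ F → PP k B → PP k A := by
  induction k with
  | zero =>
    intro A B F _ hA hB
    have hB' : B = ∅ := hB
    show A = ∅
    rw [hA, hB', empty_inter]
  | succ k ih =>
    intro A B F hF hA hB C U hC hU hCU
    obtain ⟨V, h1, h2, h3, h4⟩ := hB (C ∩ F) U (hC.inter hF) hU (by
      rintro x ⟨⟨hx1, hx2⟩, hx3⟩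
      exact hCU ⟨hx1, by rw [hA]; exact ⟨hx3, hx2⟩⟩)
    have hAB : A ⊆ B := by rw [hA]; exact inter_subset_left
    have hcl : closure (V ∩ A) ⊆ closure (V ∩ B) := closure_mono (inter_subset_inter_right _ hAB)
    refine ⟨V, h1, ?_, ?_, ?_⟩
    · rintro x ⟨hx1, hx2⟩
      rw [hA] at hx2
      exact h2 ⟨⟨hx1, hx2.2⟩, hx2.1⟩
    · rintro x ⟨hx1, hx2⟩
      exact h3 ⟨hcl hx1, hAB hx2⟩
    · apply ih _ _ (closure (V ∩ A) ∩ F) (isClosed_closure.inter hF) ?_ h4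
      ext x
      constructor
      · rintro ⟨⟨hx1, hx2⟩, hx3⟩
        rw [hA] at hx2
        exact ⟨⟨⟨hcl hx1, hx2.1⟩, hx3⟩, hx1, hx2.2⟩
      · rintro ⟨⟨⟨hx1, hx2⟩, hx3⟩, hx4, hx5⟩
        exact ⟨⟨hx4, by rw [hA]; exact ⟨hx2, hx5⟩⟩, hx3⟩

theorem PP_one_of_ZD {X : Type*} [TopologicalSpace X] [SecondCountableTopology X] {B : Set X}
    (hB : ZD B) : PP 1 B := by
  classical
  intro C U hC hU hCU
  have h1 : ∀ z : B, ∃ V V' : Set X, IsOpen V ∧ IsOpen V' ∧ z.1 ∈ V ∧ B ⊆ V ∪ V' ∧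
      V ∩ V' ∩ B = ∅ ∧ (V ∩ B ⊆ U ∨ V ∩ B ⊆ Cᶜ) := by
    intro z
    by_cases hz : z.1 ∈ U
    · obtain ⟨V, V', h1, h2, h3, h4, h5, h6⟩ := hB z.1 z.2 U hU hz
      exact ⟨V, V', h1, h2, h3, h5, h6, Or.inl h4⟩
    · obtain ⟨V, V', h1, h2, h3, h4, h5, h6⟩ := hB z.1 z.2 Cᶜ hC.isOpen_compl
        (fun h => hz (hCU ⟨h, z.2⟩))
      exact ⟨V, V', h1, h2, h3, h5, h6, Or.inr h4⟩
  choose V V' hV hV' hzV hcov hdis halt using h1
  rcases B.eq_empty_or_nonempty with hBe | ⟨z0, hz0⟩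
  · refine ⟨∅, isOpen_empty, ?_, ?_, ?_⟩
    · rw [hBe]; simp
    · rw [hBe]; simp
    · show _ = ∅
      rw [hBe]; simp
  obtain ⟨T, hT, hTU⟩ := isOpen_iUnion_countable V hV
  have hTne : T.Nonempty := by
    by_contra hc
    rw [not_nonempty_iff_eq_empty] at hc
    have : z0 ∈ ⋃ i, V i := mem_iUnion.2 ⟨⟨z0, hz0⟩, hzV _⟩
    rw [← hTU, hc] at this
    simp at this
  obtain ⟨g, hg⟩ := hT.exists_eq_range hTne
  have hcovB : ∀ x ∈ B, ∃ n, x ∈ V (g n) := by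
    intro x hx
    have : x ∈ ⋃ i, V i := mem_iUnion.2 ⟨⟨x, hx⟩, hzV _⟩
    rw [← hTU, hg] at this
    simpa using this
  let W : ℕ → Set X := fun n => V (g n) ∩ ⋂ m ∈ Finset.range n, V' (g m)
  have hWo : ∀ n, IsOpen (W n) := by
    intro n
    exact (hV _).inter (isOpen_biInter_finset fun m _ => hV' _)
  have hWB : ∀ x ∈ B, ∀ n, x ∈ W n ↔ x ∈ V (g n) ∧ ∀ m < n, x ∉ V (g m) := by
    intro x hx n
    simp only [W, mem_inter_iff, mem_iInter, Finset.mem_range]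
    constructor
    · rintro ⟨h1, h2⟩
      refine ⟨h1, fun m hm h3 => ?_⟩
      have : x ∈ V (g m) ∩ V' (g m) ∩ B := ⟨⟨h3, h2 m hm⟩, hx⟩
      rw [hdis] at this
      exact this
    · rintro ⟨h1, h2⟩
      exact ⟨h1, fun m hm => (hcov (g m) hx).resolve_left (h2 m hm)⟩
  have hcovW : ∀ x ∈ B, ∃ n, x ∈ W n := by
    intro x hx
    have hex := hcovB x hx
    refine ⟨Nat.find hex, (hWB x hx _).2 ⟨Nat.find_spec hex, fun m hm => Nat.find_min hex hm⟩⟩
  have huniq : ∀ x ∈ B, ∀ n m, x ∈ W n → x ∈ W m → n = m := by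
    intro x hx n m hn hm
    rw [hWB x hx] at hn hm
    rcases lt_trichotomy n m with h | h | h
    · exact absurd hn.1 (hm.2 n h)
    · exact h
    · exact absurd hm.1 (hn.2 m h)
  let N : Set ℕ := {n | V (g n) ∩ B ⊆ U}
  let O1 : Set X := ⋃ n ∈ N, W n
  let O2 : Set X := ⋃ n ∈ Nᶜ, W n
  have hO1 : IsOpen O1 := isOpen_biUnion fun n _ => hWo n
  have hO2 : IsOpen O2 := isOpen_biUnion fun n _ => hWo n
  have hO12 : ∀ x ∈ B, x ∈ O1 → x ∈ O2 → False := by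
    intro x hx h1 h2
    simp only [O1, O2, mem_iUnion, exists_prop] at h1 h2
    obtain ⟨n, hn, hxn⟩ := h1
    obtain ⟨m, hm, hxm⟩ := h2
    rw [huniq x hx n m hxn hxm] at hn
    exact hm hn
  have hcl : closure (O1 ∩ B) ∩ B ⊆ O1 ∩ B := by
    rintro x ⟨hx1, hx2⟩
    obtain ⟨n, hn⟩ := hcovW x hx2
    by_cases hnN : n ∈ N
    · exact ⟨mem_biUnion hnN hn, hx2⟩
    · have hx3 : x ∈ O2 := mem_biUnion (show n ∈ Nᶜ from hnN) hn
      obtain ⟨y, hy1, hy2, hy3⟩ := mem_closure_iff.1 hx1 O2 hO2 hx3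
      exact absurd hy1 (fun h => hO12 y hy3 hy2 h)
  refine ⟨O1, hO1, ?_, ?_, ?_⟩
  · rintro x ⟨hx1, hx2⟩
    obtain ⟨n, hn⟩ := hcovW x hx2
    have hnV : x ∈ V (g n) := ((hWB x hx2 n).1 hn).1
    have hnN : n ∈ N := by
      rcases halt (g n) with h | h
      · exact h
      · exact absurd hx1 (h ⟨hnV, hx2⟩)
    exact mem_biUnion hnN hn
  · intro x hx
    obtain ⟨h1, h2⟩ := hcl hx
    simp only [O1, mem_iUnion, exists_prop] at h1
    obtain ⟨n, hn, hxn⟩ := h1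
    exact hn ⟨((hWB x h2 n).1 hxn).1, h2⟩
  · show _ = ∅
    rw [eq_empty_iff_forall_notMem]
    rintro x ⟨hx1, hx2⟩
    exact hx2 (hcl hx1).1

theorem ZD_preimage {X : Set Q} {B : Set Q} (hB : ZD (X ∩ B)) :
    ZD ((Subtype.val : X → Q) ⁻¹' B) := by
  intro z hz O hO hzO
  obtain ⟨O', hO', rfl⟩ := isOpen_induced_iff.1 hO
  obtain ⟨V, V', h1, h2, h3, h4, h5, h6⟩ := hB z.1 ⟨z.2, hz⟩ O' hO' hzO
  refine ⟨Subtype.val ⁻¹' V, Subtype.val ⁻¹' V', h1.preimage continuous_subtype_val,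
    h2.preimage continuous_subtype_val, h3, ?_, ?_, ?_⟩
  · rintro x ⟨hx1, hx2⟩
    exact h4 ⟨hx1, x.2, hx2⟩
  · intro x hx
    exact h5 ⟨x.2, hx⟩
  · rw [eq_empty_iff_forall_notMem] at h6 ⊢
    rintro x ⟨⟨hx1, hx2⟩, hx3⟩
    exact h6 x.1 ⟨⟨hx1, hx2⟩, x.2, hx3⟩

/-- Extending a partition from `X ∩ K` to the cube. -/
theorem extend_partition {X : Set Q} (K : Set Q) (k : ℕ)
    (h : PP (k + 1) ((Subtype.val : X → Q) ⁻¹' K)) (A V2 : Set Q) (hA : IsClosed A)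
    (hV2 : IsOpen V2) (hAV : A ⊆ V2) :
    ∃ W1 W2 : Set Q, IsOpen W1 ∧ IsOpen W2 ∧ Disjoint W1 W2 ∧ A ⊆ W1 ∧ V2ᶜ ⊆ W2 ∧
      PP k ((Subtype.val : X → Q) ⁻¹' ((W1 ∪ W2)ᶜ ∩ K)) := by
  obtain ⟨G1, hG1o, hG1, hG1c⟩ := normal_exists_closure_subset hA hV2 hAV
  obtain ⟨G2, hG2o, hG2, hG2c⟩ := normal_exists_closure_subset isClosed_closure hV2 hG1c
  set B := (Subtype.val : X → Q) ⁻¹' K with hB
  obtain ⟨V, hV, hCV, hVU, hFr⟩ := h (Subtype.val ⁻¹' (closure G1)) (Subtype.val ⁻¹' G2)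
    (isClosed_closure.preimage continuous_subtype_val) (hG2o.preimage continuous_subtype_val)
    (fun x hx => hG2 hx.1)
  obtain ⟨V0, hV0, rfl⟩ := isOpen_induced_iff.1 hV
  set V := (Subtype.val : X → Q) ⁻¹' V0 with hVdef
  set A1 := Subtype.val '' (V ∩ B) with hA1
  set A2 := Subtype.val '' (B \ closure (V ∩ B)) with hA2
  have hA1G2 : A1 ⊆ G2 := by
    rintro _ ⟨x, hx, rfl⟩
    exact hVU ⟨subset_closure hx, hx.2⟩
  have hA1V2 : closure A1 ⊆ V2 := (closure_mono hA1G2).trans hG2c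
  have hG1A2 : Disjoint (closure G1) A2 := by
    rw [disjoint_left]
    rintro _ hx1 ⟨x, hx2, rfl⟩
    exact hx2.2 (subset_closure ⟨hCV ⟨hx1, hx2.1⟩, hx2.1⟩)
  have hclA1A2 : Disjoint (closure A1) A2 := by
    rw [disjoint_left]
    rintro _ hx1 ⟨x, hx2, rfl⟩
    exact hx2.2 (closure_subtype.2 hx1)
  have hAA2 : Disjoint A (closure A2) := by
    have h1 : Disjoint G1 A2 := hG1A2.mono_left subset_closure
    exact (h1.closure_right hG1o).mono_left hG1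
  have hA1A2 : Disjoint A1 (closure A2) := by
    have h1 : Disjoint V0 A2 := by
      rw [disjoint_left]
      rintro _ hx1 ⟨x, hx2, rfl⟩
      exact hx2.2 (subset_closure ⟨hx1, hx2.1⟩)
    refine (h1.closure_right hV0).mono_left ?_
    rintro _ ⟨x, hx, rfl⟩
    exact hx.1
  have hsep1 : Disjoint (closure (A ∪ A1)) (V2ᶜ ∪ A2) := by
    rw [closure_union, hA.closure_eq, disjoint_union_left, disjoint_union_right,
      disjoint_union_right]
    refine ⟨⟨disjoint_compl_right_iff_subset.2 hAV, ?_⟩,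
      disjoint_compl_right_iff_subset.2 hA1V2, hclA1A2⟩
    exact hAA2.mono_right subset_closure
  have hsep2 : Disjoint (A ∪ A1) (closure (V2ᶜ ∪ A2)) := by
    rw [closure_union, hV2.isClosed_compl.closure_eq, disjoint_union_left, disjoint_union_right,
      disjoint_union_right]
    refine ⟨⟨disjoint_compl_right_iff_subset.2 hAV, hAA2⟩,
      disjoint_compl_right_iff_subset.2 (subset_closure.trans hA1V2), hA1A2⟩
  obtain ⟨W1, W2, hW1, hW2, hS1, hS2, hW⟩ :=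
    separatedNhds_iff_disjoint.2 (CompletelyNormalSpace.completely_normal hsep1 hsep2)
  refine ⟨W1, W2, hW1, hW2, hW, subset_union_left.trans hS1, subset_union_left.trans hS2, ?_⟩
  apply PP_closed k _ _ (Subtype.val ⁻¹' (W1 ∪ W2)ᶜ)
    ((hW1.union hW2).isClosed_compl.preimage continuous_subtype_val) ?_ hFr
  ext x
  constructor
  · rintro ⟨hx1, hx2⟩
    refine ⟨⟨⟨?_, hx2⟩, ?_⟩, hx1⟩
    · by_contra hc
      exact hx1 (Or.inr (hS2 (Or.inr ⟨x, ⟨hx2, hc⟩, rfl⟩)))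
    · intro hc
      exact hx1 (Or.inl (hS1 (Or.inr ⟨x, ⟨hc, hx2⟩, rfl⟩)))
  · rintro ⟨⟨⟨hx1, hx2⟩, hx3⟩, hx4⟩
    exact ⟨hx4, hx2⟩

theorem not_PP_of_big {X : Set Q} (hX : ∀ K : Set Q, IsClosed K → ¬ Small K → (X ∩ K).Nonempty)
    (k : ℕ) : ∀ K : Set Q, IsClosed K → ¬ Small K → ¬ PP k ((Subtype.val : X → Q) ⁻¹' K) := by
  induction k with
  | zero =>
    intro K hK hKs hP
    obtain ⟨x, hx1, hx2⟩ := hX K hK hKs
    have hP' : (Subtype.val : X → Q) ⁻¹' K = ∅ := hP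
    have : (⟨x, hx1⟩ : X) ∈ (Subtype.val : X → Q) ⁻¹' K := hx2
    rw [hP'] at this
    exact this
  | succ k ih =>
    intro K hK hKs hP
    apply hKs
    let 𝓑 := countableBasis Q
    have h𝓑 : IsTopologicalBasis 𝓑 := isBasis_countableBasis Q
    have h𝓑c : Countable 𝓑 := (countable_countableBasis Q).to_subtype
    let ι := {p : 𝓑 × 𝓑 // closure p.1.1 ⊆ p.2.1}
    have h1 : ∀ p : ι, ∃ W1 W2 : Set Q, IsOpen W1 ∧ IsOpen W2 ∧ Disjoint W1 W2 ∧
        closure p.1.1.1 ⊆ W1 ∧ (p.1.2.1)ᶜ ⊆ W2 ∧ Small ((W1 ∪ W2)ᶜ ∩ K) := by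
      intro p
      obtain ⟨W1, W2, h1, h2, h3, h4, h5, h6⟩ := extend_partition K k hP (closure p.1.1.1)
        p.1.2.1 isClosed_closure (h𝓑.isOpen p.1.2.2) p.2
      refine ⟨W1, W2, h1, h2, h3, h4, h5, ?_⟩
      by_contra hc
      exact ih _ ((h1.union h2).isClosed_compl.inter hK) hc h6
    choose W1 W2 hW1 hW2 hW hA hV hS using h1
    -- enumerate, adding an empty set
    have hne : Nonempty (Option ι) := ⟨none⟩
    obtain ⟨g, hg⟩ := exists_surjective_nat (Option ι)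
    let C : Option ι → Set Q := fun o => match o with
      | none => ∅
      | some p => (W1 p ∪ W2 p)ᶜ ∩ K
    have hC : ∀ o, IsClosed (C o) ∧ Small (C o) := by
      rintro (_ | p)
      · exact ⟨isClosed_empty, small_empty⟩
      · exact ⟨((hW1 p).union (hW2 p)).isClosed_compl.inter hK, hS p⟩
    refine small_of_cover K hK (fun n => C (g n)) (fun n => (hC _).1) (fun n => (hC _).2)
      {x | ∀ p, x ∈ W1 p ∪ W2 p} ?_ ?_
    · intro z hz O hO hzO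
      obtain ⟨V2, hV2, hzV2, hV2O⟩ := h𝓑.exists_subset_of_mem_open hzO hO
      obtain ⟨V1, hV1, hzV1, hV1V2⟩ := h𝓑.exists_closure_subset
        ((h𝓑.isOpen hV2).mem_nhds hzV2)
      let p : ι := ⟨(⟨V1, hV1⟩, ⟨V2, hV2⟩), hV1V2⟩
      refine ⟨W1 p, W2 p, hW1 p, hW2 p, hA p (subset_closure hzV1), ?_, ?_, ?_⟩
      · rintro y ⟨hy1, _⟩
        apply hV2O
        by_contra hc
        exact disjoint_left.1 (hW p) hy1 (hV p hc)
      · intro y hy
        exact hy p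
      · rw [eq_empty_iff_forall_notMem]
        rintro y ⟨⟨hy1, hy2⟩, _⟩
        exact disjoint_left.1 (hW p) hy1 hy2
    · rintro x ⟨hx1, hx2⟩
      by_cases hx : ∀ p, x ∈ W1 p ∪ W2 p
      · exact Or.inl hx
      · right
        push Not at hx
        obtain ⟨p, hp⟩ := hx
        obtain ⟨n, hn⟩ := hg (some p)
        refine mem_iUnion.2 ⟨n, ?_⟩
        show x ∈ C (g n)
        rw [hn]
        exact ⟨hp, hx1⟩

/-- The main result: a subspace of the Hilbert cube which is countable dimensional, infinite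
dimensional and has no closed subspace of dimension one. -/
theorem main : ∃ X : Set Q,
    (∃ Z : ℕ → Set X, (∀ i, PP 1 (Z i)) ∧ (⋃ i, Z i) = univ) ∧
    (∀ k, ¬ PP k (univ : Set X)) ∧
    (∀ A : Set X, IsClosed A → PP 1 A ∨ ∀ k, ¬ PP k A) := by
  obtain ⟨X, hX1, hX2, hX3⟩ := construction
  refine ⟨X, ?_, ?_, ?_⟩
  · obtain ⟨g, hg⟩ := exists_surjective_nat (Finset (ℕ × ℚ))
    refine ⟨fun n => Subtype.val ⁻¹' (Es (g n)), fun n => ?_, ?_⟩
    · exact PP_one_of_ZD (ZD_preimage ((Es_ZD (g n)).mono inter_subset_right))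
    · rw [eq_univ_iff_forall]
      intro x
      obtain ⟨s, hs⟩ := mem_iUnion.1 (hX1 x.2)
      obtain ⟨n, rfl⟩ := hg s
      exact mem_iUnion.2 ⟨n, hs⟩
  · intro k
    have := not_PP_of_big hX2 k univ isClosed_univ not_small_univ
    rwa [preimage_univ] at this
  · intro A hA
    obtain ⟨K, hK, rfl⟩ := isClosed_induced_iff.1 hA
    by_cases hs : Small K
    · left
      apply PP_one_of_ZD
      apply ZD_preimage
      apply ZD_of_coord
      exact hX3 K hK hs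
    · right
      intro k
      exact not_PP_of_big hX2 k K hK hs

end Pool.Agent.Helper520.CD
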